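import Mathlib

set_option autoImplicit false
set_option linter.unusedSectionVars false
set_option linter.unusedVariables false

/-!
A vector orthogonal to all joint eigenvectors of a one-parameter group is orthogonal to all
eigenvectors of its time one map.
-/

namespace Pool.Agent.W42.RN

open MeasureTheory Filter Topology Finset

/-- characters of the line -/
noncomputable def ee (c u : ℝ) : ℂ := Complex.exp (2 * Real.pi * Complex.I * (c * u))

theorem ee_add (c u v : ℝ) : ee c (u + v) = ee c u * ee c v := by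
  unfold ee
  rw [← Complex.exp_add]
  congr 1
  push_cast; ring

theorem ee_add' (c c' u : ℝ) : ee (c + c') u = ee c u * ee c' u := by
  unfold ee
  rw [← Complex.exp_add]
  congr 1
  push_cast; ring

theorem ee_neg (c u : ℝ) : ee (-c) u * ee c u = 1 := by
  rw [← ee_add', neg_add_cancel]
  unfold ee
  simp

theorem ee_int (q : ℤ) : ee q 1 = 1 := by
  unfold ee
  rw [Complex.exp_eq_one_iff]
  exact ⟨q, by push_cast; ring⟩

theorem ee_cont (c : ℝ) : Continuous fun u => ee c u := by
  unfold ee
  fun_prop

theorem norm_ee (c u : ℝ) : ‖ee c u‖ = 1 := by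
  unfold ee
  rw [Complex.norm_exp]
  simp

theorem ee_zero (c : ℝ) : ee c 0 = 1 := by
  unfold ee
  simp

/-- a continuous function of period one all of whose Fourier coefficients vanish is zero -/
theorem four_zero (ψ : ℝ → ℂ) (hc : Continuous ψ) (hp : Function.Periodic ψ 1)
    (h : ∀ q : ℤ, ∫ u in (0 : ℝ)..1, ee (-q) u * ψ u = 0) : ψ 0 = 0 := by
  have hcont : Continuous hp.lift := by
    have : Topology.IsQuotientMap (QuotientAddGroup.mk : ℝ → ℝ ⧸ AddSubgroup.zmultiples (1 : ℝ)) :=
      QuotientAddGroup.isQuotientMap_mk _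
    rw [this.continuous_iff]
    exact hc
  obtain ⟨Ψ, hΨ⟩ : ∃ Ψ : C(AddCircle (1 : ℝ), ℂ), ∀ x : ℝ, Ψ (x : AddCircle (1 : ℝ)) = ψ x :=
    ⟨⟨hp.lift, hcont⟩, fun x => hp.lift_coe x⟩
  have h0 : ∀ n, fourierCoeff Ψ n = 0 := by
    intro n
    rw [fourierCoeff_eq_intervalIntegral _ n 0]
    have e : ∀ x : ℝ, fourier (-n) (x : AddCircle (1 : ℝ)) • Ψ (x : AddCircle (1 : ℝ)) = ee (-n) x * ψ x := by
      intro x
      rw [hΨ, smul_eq_mul, fourier_coe_apply]
      congr 1
      unfold ee
      congr 1
      push_cast; ring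
    simp_rw [e]
    rw [zero_add, h n, smul_zero]
  have hs : Summable (fourierCoeff (Ψ : AddCircle (1 : ℝ) → ℂ)) := by
    have : fourierCoeff (Ψ : AddCircle (1 : ℝ) → ℂ) = fun _ => 0 := funext h0
    rw [this]; exact summable_zero
  have h1 := has_pointwise_sum_fourier_series_of_summable hs ((0 : ℝ) : AddCircle (1 : ℝ))
  simp only [h0, zero_smul] at h1
  have h2 := h1.unique hasSum_zero
  rw [← hΨ 0]
  exact h2

theorem fourier_lemma {H : Type} [NormedAddCommGroup H] [InnerProductSpace ℂ H] [CompleteSpace H]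
    (V : ℝ → H →L[ℂ] H) (hadd : ∀ s u w, V s (V u w) = V (s + u) w) (h0 : ∀ w, V 0 w = w) (w : H)
    (hc : Continuous fun u => V u w) (θ : Circle) (hθ : V 1 w = (θ : ℂ) • w) (v : H)
    (hv : ∀ (α : ℝ) (g : H), (∀ u, V u g = ee α u • g) → inner ℂ v g = 0) : inner ℂ v w = 0 := by
  obtain ⟨α, hα⟩ : ∃ α : ℝ, ee α 1 = (θ : ℂ) := by
    obtain ⟨a, ha⟩ : ∃ a : ℝ, Complex.exp (a * Complex.I) = (θ : ℂ) := by
      refine ⟨Complex.arg θ, ?_⟩
      have h1 := congrArg (fun z : Circle => (z : ℂ)) (Circle.exp_arg θ)
      simp only [Circle.coe_exp] at h1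
      exact h1
    refine ⟨a / (2 * Real.pi), ?_⟩
    rw [← ha]
    unfold ee
    congr 1
    have hpi : (Real.pi : ℂ) ≠ 0 := by exact_mod_cast Real.pi_ne_zero
    push_cast
    field_simp
  -- the periodic functions
  have hper : ∀ q : ℤ, Function.Periodic (fun u => ee (-(α + q)) u • V u w) 1 := by
    intro q u
    simp only
    rw [ee_add, ← hadd u 1 w, hθ, map_smul, smul_smul]
    congr 1
    have h1 : ee (-(α + q)) 1 * (θ : ℂ) = 1 := by
      rw [← hα]
      have h2 := ee_neg (α + q) 1
      rw [ee_add' α q, ee_int, mul_one] at h2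
      exact h2
    rw [mul_assoc, h1, mul_one]
  have hcq : ∀ q : ℤ, Continuous (fun u => ee (-(α + q)) u • V u w) := fun q => (ee_cont _).smul hc
  have hinner : ∀ q : ℤ, inner ℂ v (∫ u in (0 : ℝ)..1, ee (-(α + q)) u • V u w) = 0 := by
    intro q
    apply hv (α + q)
    intro s
    rw [← ContinuousLinearMap.intervalIntegral_comp_comm (V s) ((hcq q).intervalIntegrable _ _)]
    have e : ∀ u, V s (ee (-(α + q)) u • V u w) = ee (α + q) s • (ee (-(α + q)) (s + u) • V (s + u) w) := by
      intro u
      rw [map_smul, hadd, smul_smul, ee_add]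
      congr 1
      have := ee_neg (α + q) s
      calc ee (-(α + q)) u = (ee (-(α + q)) s * ee (α + q) s) * ee (-(α + q)) u := by rw [this, one_mul]
        _ = _ := by ring
    simp_rw [e]
    rw [intervalIntegral.integral_smul, intervalIntegral.integral_comp_add_left
      (fun u => ee (-(α + q)) u • V u w) s]
    congr 1
    rw [add_zero]
    have := (hper q).intervalIntegral_add_eq s 0
    rw [zero_add] at this
    exact this
  have hψ := four_zero (fun u => ee (-α) u * inner ℂ v (V u w)) ((ee_cont _).mul (continuous_const.inner hc)) (by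
      intro u
      have h1 := hper 0 u
      simp only [Int.cast_zero, add_zero] at h1
      have h2 := congrArg (inner ℂ v) h1
      rw [inner_smul_right, inner_smul_right] at h2
      exact h2) (by
      intro q
      have h1 := hinner q
      have h2 := ContinuousLinearMap.intervalIntegral_comp_comm (innerSL ℂ v)
        ((hcq q).intervalIntegrable (μ := volume) 0 1)
      simp only [innerSL_apply_apply] at h2
      rw [h1] at h2
      rw [← h2]
      congr 1
      funext u
      rw [inner_smul_right, ← mul_assoc, ← ee_add']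
      congr 2
      ring)
  simp only [ee_zero, one_mul, h0] at hψ
  exact hψ

end Pool.Agent.W42.RN
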