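import Mathlib

set_option autoImplicit false
set_option linter.unusedSectionVars false
set_option linter.unusedVariables false

/-!
Correlations along an ultrafilter of spread out time vectors.
-/

namespace Pool.Agent.W42.RN

open MeasureTheory Filter Topology Finset

variable {X : Type} [MeasurableSpace X]

/-- measurable and bounded -/
structure Bd (f : X → ℂ) : Prop where
  meas : Measurable f
  bdd : ∃ C : ℝ, ∀ p, ‖f p‖ ≤ C

theorem Bd.const (c : ℂ) : Bd fun _ : X => c := ⟨measurable_const, ‖c‖, fun _ => le_rfl⟩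

theorem Bd.add {f g : X → ℂ} (hf : Bd f) (hg : Bd g) : Bd (f + g) := by
  obtain ⟨C, hC⟩ := hf.bdd
  obtain ⟨D, hD⟩ := hg.bdd
  exact ⟨hf.meas.add hg.meas, C + D, fun p => (norm_add_le _ _).trans (add_le_add (hC p) (hD p))⟩

theorem Bd.smul {f : X → ℂ} (c : ℂ) (hf : Bd f) : Bd (c • f) := by
  obtain ⟨C, hC⟩ := hf.bdd
  refine ⟨hf.meas.const_smul c, ‖c‖ * C, fun p => ?_⟩
  rw [Pi.smul_apply, norm_smul]
  exact mul_le_mul_of_nonneg_left (hC p) (norm_nonneg _)

theorem Bd.sub {f g : X → ℂ} (hf : Bd f) (hg : Bd g) : Bd (f - g) := by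
  have := hf.add (hg.smul (-1))
  convert this using 1
  simp [sub_eq_add_neg]

theorem Bd.mul {f g : X → ℂ} (hf : Bd f) (hg : Bd g) : Bd fun p => f p * g p := by
  obtain ⟨C, hC⟩ := hf.bdd
  obtain ⟨D, hD⟩ := hg.bdd
  refine ⟨hf.meas.mul hg.meas, |C| * |D|, fun p => ?_⟩
  rw [norm_mul]
  exact mul_le_mul ((hC p).trans (le_abs_self _)) ((hD p).trans (le_abs_self _)) (norm_nonneg _) (abs_nonneg _)

theorem Bd.conj {f : X → ℂ} (hf : Bd f) : Bd fun p => (starRingEnd ℂ) (f p) := by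
  obtain ⟨C, hC⟩ := hf.bdd
  refine ⟨Complex.continuous_conj.measurable.comp hf.meas, C, fun p => ?_⟩
  rw [RCLike.norm_conj]
  exact hC p

theorem Bd.comp {f : X → ℂ} (hf : Bd f) {S : X → X} (hS : Measurable S) : Bd fun p => f (S p) := by
  obtain ⟨C, hC⟩ := hf.bdd
  exact ⟨hf.meas.comp hS, C, fun p => hC _⟩

theorem Bd.prod {ι : Type*} (s : Finset ι) {f : ι → X → ℂ} (hf : ∀ i ∈ s, Bd (f i)) :
    Bd fun p => ∏ i ∈ s, f i p := by
  classical
  induction s using Finset.induction_on with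
  | empty => simpa using Bd.const (X := X) 1
  | insert a s ha ih =>
    have h1 := ih fun i hi => hf i (mem_insert_of_mem hi)
    have h2 := hf a (mem_insert_self a s)
    have e : (fun p => ∏ i ∈ insert a s, f i p) = fun p => f a p * ∏ i ∈ s, f i p := by
      funext p; rw [prod_insert ha]
    rw [e]
    exact h2.mul h1

theorem Bd.common {N : ℕ} {f : Fin N → X → ℂ} (hf : ∀ i, Bd (f i)) :
    ∃ K : ℝ, 1 ≤ K ∧ ∀ i p, ‖f i p‖ ≤ K := by
  choose C hC using fun i => (hf i).bdd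
  refine ⟨1 + ∑ i, |C i|, ?_, fun i p => ?_⟩
  · have : 0 ≤ ∑ i, |C i| := sum_nonneg fun i _ => abs_nonneg _
    linarith
  · have h1 : |C i| ≤ ∑ i, |C i| := single_le_sum (f := fun i => |C i|) (fun i _ => abs_nonneg _) (mem_univ i)
    have h2 := hC i p
    have h3 := le_abs_self (C i)
    linarith

variable {μ : Measure X} [IsProbabilityMeasure μ]

theorem Bd.int {f : X → ℂ} (hf : Bd f) : Integrable f μ := by
  obtain ⟨C, hC⟩ := hf.bdd
  exact Integrable.of_bound hf.meas.aestronglyMeasurable C (Eventually.of_forall hC)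

theorem norm_int_le {f : X → ℂ} (K : ℝ) (hK : ∀ p, ‖f p‖ ≤ K) : ‖∫ p, f p ∂μ‖ ≤ K := by
  have h := norm_integral_le_of_norm_le_const (μ := μ) (f := f) (C := K) (Eventually.of_forall hK)
  simpa using h

theorem comp_int {E : Type*} [NormedAddCommGroup E] [NormedSpace ℝ E] [MeasurableSpace E] [BorelSpace E]
    [SecondCountableTopology E] {S : X → X} (hS : MeasurePreserving S μ μ) {g : X → E}
    (hg : Measurable g) : ∫ p, g (S p) ∂μ = ∫ p, g p ∂μ := by
  have h := integral_map (μ := μ) hS.measurable.aemeasurable (f := g) (by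
    rw [hS.map_eq]; exact hg.aestronglyMeasurable)
  rw [hS.map_eq] at h
  exact h.symm

theorem sq_int_le {f : X → ℝ} (hf : Integrable f μ) (hsq : Integrable (fun p => f p ^ 2) μ) :
    (∫ p, f p ∂μ) ^ 2 ≤ ∫ p, f p ^ 2 ∂μ := by
  set c := ∫ p, f p ∂μ with hc
  have h0 : 0 ≤ ∫ p, (f p - c) ^ 2 ∂μ := integral_nonneg fun p => sq_nonneg _
  have h1 : ∫ p, (f p - c) ^ 2 ∂μ = ∫ p, f p ^ 2 ∂μ - c ^ 2 := by
    have hi2 : Integrable (fun p => 2 * c * f p) μ := hf.const_mul _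
    have e1 : ∫ p, (f p - c) ^ 2 ∂μ = ∫ p, ((f p ^ 2 - 2 * c * f p) + c ^ 2) ∂μ := by
      congr 1; funext p; ring
    have e2 : ∫ p, ((f p ^ 2 - 2 * c * f p) + c ^ 2) ∂μ = ∫ p, (f p ^ 2 - 2 * c * f p) ∂μ + ∫ _p, c ^ 2 ∂μ :=
      integral_add (f := fun p => f p ^ 2 - 2 * c * f p) (hsq.sub hi2) (integrable_const _)
    have e3 : ∫ p, (f p ^ 2 - 2 * c * f p) ∂μ = ∫ p, f p ^ 2 ∂μ - ∫ p, 2 * c * f p ∂μ :=
      integral_sub hsq hi2
    rw [e1, e2, e3, integral_const_mul, integral_const, ← hc]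
    simp
    ring
  linarith

/-- telescoping -/
theorem prod_sub_le {ι : Type*} (s : Finset ι) (a b : ι → ℂ) (K : ℝ) (hK : 1 ≤ K)
    (ha : ∀ i, ‖a i‖ ≤ K) (hb : ∀ i, ‖b i‖ ≤ K) :
    ‖∏ i ∈ s, a i - ∏ i ∈ s, b i‖ ≤ K ^ s.card * ∑ i ∈ s, ‖a i - b i‖ := by
  classical
  induction s using Finset.induction_on with
  | empty => simp
  | insert j s hj ih =>
    rw [prod_insert hj, prod_insert hj, sum_insert hj, card_insert_of_notMem hj]
    have hB : ‖∏ i ∈ s, b i‖ ≤ K ^ s.card := by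
      rw [norm_prod]
      calc _ ≤ ∏ _i ∈ s, K := prod_le_prod (fun _ _ => norm_nonneg _) (fun i _ => hb i)
        _ = _ := by rw [prod_const]
    have e : a j * ∏ i ∈ s, a i - b j * ∏ i ∈ s, b i =
        a j * (∏ i ∈ s, a i - ∏ i ∈ s, b i) + (a j - b j) * ∏ i ∈ s, b i := by ring
    rw [e]
    have hKs : 0 ≤ K ^ s.card := by positivity
    have h1 : ‖a j * (∏ i ∈ s, a i - ∏ i ∈ s, b i)‖ ≤ K * (K ^ s.card * ∑ i ∈ s, ‖a i - b i‖) := by
      rw [norm_mul]
      exact mul_le_mul (ha j) ih (norm_nonneg _) (by linarith)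
    have h2 : ‖(a j - b j) * ∏ i ∈ s, b i‖ ≤ ‖a j - b j‖ * K ^ s.card := by
      rw [norm_mul]
      exact mul_le_mul_of_nonneg_left hB (norm_nonneg _)
    have h3 : ‖a j - b j‖ * K ^ s.card ≤ K * (‖a j - b j‖ * K ^ s.card) := by
      have : 0 ≤ ‖a j - b j‖ * K ^ s.card := by positivity
      nlinarith
    calc _ ≤ _ := norm_add_le _ _
      _ ≤ K * (K ^ s.card * ∑ i ∈ s, ‖a i - b i‖) + K * (‖a j - b j‖ * K ^ s.card) := by linarith
      _ = _ := by ring

/-- Cauchy-Schwarz -/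
theorem cs {G : X → ℂ} (hG : Bd G) (K : ℝ) (hK : ∀ p, ‖G p‖ ≤ K) (M : ℕ) (F : ℕ → X → ℂ)
    (hF : ∀ a, Bd (F a)) :
    ‖∑ a ∈ range M, ∫ p, G p * F a p ∂μ‖ ^ 2 ≤
      K ^ 2 * ∑ a ∈ range M, ∑ b ∈ range M, ‖∫ p, F a p * (starRingEnd ℂ) (F b p) ∂μ‖ := by
  have hK0 : 0 ≤ K := by
    by_contra h
    have hem : IsEmpty X := ⟨fun p => by
      have := hK p
      have := norm_nonneg (G p)
      linarith⟩
    have h1 : μ Set.univ = 1 := measure_univ
    rw [Set.univ_eq_empty_iff.2 hem, measure_empty] at h1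
    exact zero_ne_one h1
  set S : X → ℂ := fun p => ∑ a ∈ range M, F a p with hS
  have hSB : Bd S := by
    have : ∀ M' : ℕ, Bd fun p => ∑ a ∈ range M', F a p := by
      intro M'
      induction M' with
      | zero => simpa using Bd.const (X := X) 0
      | succ M' ih =>
        have := ih.add (hF M')
        convert this using 1
        funext p
        rw [sum_range_succ]; rfl
    exact this M
  have h1 : ∑ a ∈ range M, ∫ p, G p * F a p ∂μ = ∫ p, G p * S p ∂μ := by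
    rw [← integral_finsetSum _ fun a _ => (hG.mul (hF a)).int]
    congr 1; funext p; rw [hS, mul_sum]
  have hn : Bd fun p => ((‖S p‖ : ℝ) : ℂ) := by
    obtain ⟨C, hC⟩ := hSB.bdd
    exact ⟨Complex.measurable_ofReal.comp hSB.meas.norm, C, fun p => by simpa using hC p⟩
  have hni : Integrable (fun p => ‖S p‖) μ := hSB.int.norm
  have hsq : Integrable (fun p => ‖S p‖ ^ 2) μ := by
    have := (hSB.mul hSB).int (μ := μ)
    refine this.norm.congr (Eventually.of_forall fun p => ?_)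
    simp only [norm_mul]; ring
  have h2 : ‖∫ p, G p * S p ∂μ‖ ≤ K * ∫ p, ‖S p‖ ∂μ := by
    rw [← integral_const_mul]
    refine (norm_integral_le_integral_norm _).trans ?_
    apply integral_mono (hG.mul hSB).int.norm (hni.const_mul K)
    intro p
    simp only [norm_mul]
    exact mul_le_mul_of_nonneg_right (hK p) (norm_nonneg _)
  have h3 : (∫ p, ‖S p‖ ∂μ) ^ 2 ≤ ∫ p, ‖S p‖ ^ 2 ∂μ := sq_int_le hni hsq
  have h4 : ((∫ p, ‖S p‖ ^ 2 ∂μ : ℝ) : ℂ) = ∑ a ∈ range M, ∑ b ∈ range M, ∫ p, F a p * (starRingEnd ℂ) (F b p) ∂μ := by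
    rw [← integral_complex_ofReal]
    have e : ∀ p, (((‖S p‖ ^ 2 : ℝ)) : ℂ) = ∑ a ∈ range M, ∑ b ∈ range M, F a p * (starRingEnd ℂ) (F b p) := by
      intro p
      push_cast
      rw [← Complex.mul_conj', hS]
      simp only [map_sum]
      rw [sum_mul_sum]
    rw [integral_congr_ae (Eventually.of_forall e)]
    rw [integral_finsetSum _ fun a _ => ?_]
    · refine sum_congr rfl fun a _ => ?_
      rw [integral_finsetSum _ fun b _ => ((hF a).mul (hF b).conj).int]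
    · exact integrable_finsetSum _ fun b _ => ((hF a).mul (hF b).conj).int
  have h5 : ∫ p, ‖S p‖ ^ 2 ∂μ ≤ ∑ a ∈ range M, ∑ b ∈ range M, ‖∫ p, F a p * (starRingEnd ℂ) (F b p) ∂μ‖ := by
    have h6 : ‖((∫ p, ‖S p‖ ^ 2 ∂μ : ℝ) : ℂ)‖ = ∫ p, ‖S p‖ ^ 2 ∂μ := by
      rw [Complex.norm_real, Real.norm_eq_abs, abs_of_nonneg (integral_nonneg fun p => by positivity)]
    rw [← h6, h4]
    refine (norm_sum_le _ _).trans (sum_le_sum fun a _ => norm_sum_le _ _)
  rw [h1]
  have h7 : 0 ≤ ∫ p, ‖S p‖ ∂μ := integral_nonneg fun p => norm_nonneg _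
  calc _ ≤ (K * ∫ p, ‖S p‖ ∂μ) ^ 2 := pow_le_pow_left₀ (norm_nonneg _) h2 2
    _ = K ^ 2 * (∫ p, ‖S p‖ ∂μ) ^ 2 := by ring
    _ ≤ _ := mul_le_mul_of_nonneg_left (h3.trans h5) (by positivity)

/-- correlation at the times `n` -/
noncomputable def C (μ : Measure X) (P : ℤ → X → X) {N : ℕ} (n : Fin N → ℤ) (f : Fin N → X → ℂ) : ℂ :=
  ∫ p, ∏ i, f i (P (n i) p) ∂μ

/-- the limit of the correlations along an ultrafilter -/
noncomputable def L (μ : Measure X) (P : ℤ → X → X) {N : ℕ} (U : Ultrafilter (Fin N → ℤ))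
    (f : Fin N → X → ℂ) : ℂ :=
  limUnder (U : Filter (Fin N → ℤ)) fun n => C μ P n f

/-- a measure preserving action of the integers -/
structure Act (μ : Measure X) (P : ℤ → X → X) : Prop where
  mp : ∀ n, MeasurePreserving (P n) μ μ
  zero : P 0 = id
  add : ∀ m n, P (m + n) = P m ∘ P n

variable {P : ℤ → X → X} {N : ℕ} {U : Ultrafilter (Fin N → ℤ)}

theorem Bd.tuple (hP : Act μ P) {f : Fin N → X → ℂ} (hf : ∀ i, Bd (f i)) (n : Fin N → ℤ) (s : Finset (Fin N)) :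
    Bd fun p => ∏ i ∈ s, f i (P (n i) p) :=
  Bd.prod s fun i _ => (hf i).comp (hP.mp _).measurable

theorem norm_C_le {f : Fin N → X → ℂ} (K : ℝ) (hK : ∀ i p, ‖f i p‖ ≤ K) (n : Fin N → ℤ) :
    ‖C μ P n f‖ ≤ K ^ N := by
  apply norm_int_le
  intro p
  rw [norm_prod]
  calc _ ≤ ∏ _i : Fin N, K := prod_le_prod (fun _ _ => norm_nonneg _) (fun i _ => hK i _)
    _ = _ := by rw [prod_const, card_univ, Fintype.card_fin]

theorem ultra_lim {α : Type*} (V : Ultrafilter α) (c : α → ℂ) (R : ℝ) (hc : ∀ a, ‖c a‖ ≤ R) :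
    ∃ x, Tendsto c V (𝓝 x) := by
  have hcpt := isCompact_closedBall (0 : ℂ) R
  obtain ⟨x, _, hx⟩ := hcpt.ultrafilter_le_nhds (V.map c) (by
    rw [le_principal_iff]
    exact Eventually.of_forall (p := fun a => c a ∈ Metric.closedBall (0 : ℂ) R) fun a => by simpa using hc a)
  exact ⟨x, hx⟩

theorem ultra_lim_real {α : Type*} (V : Ultrafilter α) (c : α → ℝ) (R : ℝ) (hc : ∀ᶠ a in (V : Filter α), |c a| ≤ R) :
    ∃ x, Tendsto c V (𝓝 x) := by
  have hcpt := isCompact_closedBall (0 : ℝ) R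
  obtain ⟨x, _, hx⟩ := hcpt.ultrafilter_le_nhds (V.map c) (by
    rw [le_principal_iff]
    show ∀ᶠ a in (V : Filter α), c a ∈ Metric.closedBall (0 : ℝ) R
    filter_upwards [hc] with a ha
    simpa using ha)
  exact ⟨x, hx⟩

theorem tendsto_L {f : Fin N → X → ℂ} (hf : ∀ i, Bd (f i)) :
    Tendsto (fun n => C μ P n f) U (𝓝 (L μ P U f)) := by
  obtain ⟨K, _, hK⟩ := Bd.common hf
  exact tendsto_nhds_limUnder (ultra_lim U _ _ fun n => norm_C_le K hK n)

theorem L_eq {f : Fin N → X → ℂ} (hf : ∀ i, Bd (f i)) {a : ℂ}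
    (h : Tendsto (fun n => C μ P n f) U (𝓝 a)) : L μ P U f = a :=
  tendsto_nhds_unique (tendsto_L hf) h

theorem norm_L_le {f : Fin N → X → ℂ} (hf : ∀ i, Bd (f i)) (K : ℝ) (hK : ∀ i p, ‖f i p‖ ≤ K) :
    ‖L μ P U f‖ ≤ K ^ N :=
  le_of_tendsto (tendsto_L hf).norm (Eventually.of_forall fun n => norm_C_le K hK n)

theorem L_congr {f g : Fin N → X → ℂ} (hf : ∀ i, Bd (f i)) (hg : ∀ i, Bd (g i))
    (h : ∀ n, C μ P n f = C μ P n g) : L μ P U f = L μ P U g :=
  L_eq hf ((tendsto_L hg).congr fun n => (h n).symm)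

theorem prod_update (f : Fin N → X → ℂ) (j : Fin N) (g : X → ℂ) (q : Fin N → X) :
    ∏ i, Function.update f j g i (q i) = g (q j) * ∏ i ∈ univ.erase j, f i (q i) := by
  rw [← mul_prod_erase univ _ (mem_univ j), Function.update_self]
  congr 1
  refine prod_congr rfl fun i hi => ?_
  rw [Function.update_of_ne (ne_of_mem_erase hi)]

theorem Bd.update {f : Fin N → X → ℂ} (hf : ∀ i, Bd (f i)) (j : Fin N) {g : X → ℂ} (hg : Bd g) :
    ∀ i, Bd (Function.update f j g i) := by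
  intro i
  by_cases h : i = j
  · subst h; simpa using hg
  · rw [Function.update_of_ne h]; exact hf i

theorem L_add (hP : Act μ P) {f : Fin N → X → ℂ} (hf : ∀ i, Bd (f i)) (j : Fin N) {g h : X → ℂ}
    (hg : Bd g) (hh : Bd h) :
    L μ P U (Function.update f j (g + h)) = L μ P U (Function.update f j g) + L μ P U (Function.update f j h) := by
  apply L_eq (Bd.update hf j (hg.add hh))
  refine ((tendsto_L (Bd.update hf j hg)).add (tendsto_L (Bd.update hf j hh))).congr fun n => ?_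
  unfold C
  simp_rw [prod_update]
  rw [← integral_add ((hg.comp (hP.mp _).measurable).mul (Bd.tuple hP hf n _)).int
    ((hh.comp (hP.mp _).measurable).mul (Bd.tuple hP hf n _)).int]
  congr 1; funext p
  rw [Pi.add_apply]; ring

theorem L_smul {f : Fin N → X → ℂ} (hf : ∀ i, Bd (f i)) (j : Fin N) {g : X → ℂ}
    (hg : Bd g) (c : ℂ) :
    L μ P U (Function.update f j (c • g)) = c * L μ P U (Function.update f j g) := by
  apply L_eq (Bd.update hf j (hg.smul c))
  refine ((tendsto_L (Bd.update hf j hg)).const_mul c).congr fun n => ?_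
  unfold C
  simp_rw [prod_update]
  rw [← integral_const_mul]
  congr 1; funext p
  rw [Pi.smul_apply, smul_eq_mul]; ring

/-- invariance under the action -/
theorem L_inv (hP : Act μ P) {f : Fin N → X → ℂ} (hf : ∀ i, Bd (f i)) (l : ℤ) :
    L μ P U (fun i p => f i (P l p)) = L μ P U f := by
  apply L_congr (fun i => (hf i).comp (hP.mp l).measurable) hf
  intro n
  unfold C
  rw [← comp_int (hP.mp l) (g := fun p => ∏ i, f i (P (n i) p)) (Bd.tuple hP hf n _).meas]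
  congr 1; funext p
  refine prod_congr rfl fun i _ => ?_
  have h1 := congrFun (hP.add l (n i)) p
  have h2 := congrFun (hP.add (n i) l) p
  rw [Function.comp_apply] at h1 h2
  show f i (P l (P (n i) p)) = f i (P (n i) (P l p))
  rw [← h1, ← h2, add_comm]

/-- Cauchy-Schwarz with the function of index `c` isolated -/
theorem L_cs1 (hP : Act μ P) (c : Fin N) (M : ℕ) (f : ℕ → Fin N → X → ℂ) (hf : ∀ a i, Bd (f a i))
    (g : X → ℂ) (hg : Bd g) (hc : ∀ a, f a c = g) (K : ℝ) (hK : ∀ p, ‖g p‖ ≤ K) :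
    ‖∑ a ∈ range M, L μ P U (f a)‖ ^ 2 ≤ K ^ 2 * ∑ a ∈ range M, ∑ b ∈ range M,
      ‖L μ P U (Function.update (fun i p => f a i p * (starRingEnd ℂ) (f b i p)) c fun _ => 1)‖ := by
  have hB : ∀ a b i, Bd (Function.update (fun i p => f a i p * (starRingEnd ℂ) (f b i p)) c (fun _ => 1) i) :=
    fun a b => Bd.update (fun i => (hf a i).mul (hf b i).conj) c (Bd.const 1)
  have h1 : Tendsto (fun n => ‖∑ a ∈ range M, C μ P n (f a)‖ ^ 2) U (𝓝 (‖∑ a ∈ range M, L μ P U (f a)‖ ^ 2)) :=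
    (tendsto_finsetSum _ fun a _ => tendsto_L (hf a)).norm.pow 2
  have h2 : Tendsto (fun n => K ^ 2 * ∑ a ∈ range M, ∑ b ∈ range M,
      ‖C μ P n (Function.update (fun i p => f a i p * (starRingEnd ℂ) (f b i p)) c fun _ => 1)‖) U
      (𝓝 (K ^ 2 * ∑ a ∈ range M, ∑ b ∈ range M,
      ‖L μ P U (Function.update (fun i p => f a i p * (starRingEnd ℂ) (f b i p)) c fun _ => 1)‖)) :=
    (tendsto_finsetSum _ fun a _ => tendsto_finsetSum _ fun b _ => (tendsto_L (hB a b)).norm).const_mul _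
  refine le_of_tendsto_of_tendsto' h1 h2 fun n => ?_
  have h3 := cs (μ := μ) (hg.comp (hP.mp (n c)).measurable) K (fun p => hK _) M
    (fun a p => ∏ i ∈ univ.erase c, f a i (P (n i) p)) (fun a => Bd.tuple hP (hf a) n _)
  have e1 : ∀ a, C μ P n (f a) = ∫ p, g (P (n c) p) * ∏ i ∈ univ.erase c, f a i (P (n i) p) ∂μ := by
    intro a
    unfold C
    congr 1; funext p
    rw [← mul_prod_erase univ _ (mem_univ c), hc]
  have e2 : ∀ a b, C μ P n (Function.update (fun i p => f a i p * (starRingEnd ℂ) (f b i p)) c fun _ => 1) =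
      ∫ p, (∏ i ∈ univ.erase c, f a i (P (n i) p)) * (starRingEnd ℂ) (∏ i ∈ univ.erase c, f b i (P (n i) p)) ∂μ := by
    intro a b
    unfold C
    congr 1; funext p
    rw [prod_update, one_mul, map_prod, prod_mul_distrib]
  simp only [e1, e2]
  exact h3

/-- Cauchy-Schwarz -/
theorem L_cs2 (hP : Act μ P) (M : ℕ) (f : ℕ → Fin N → X → ℂ) (hf : ∀ a i, Bd (f a i)) :
    ‖∑ a ∈ range M, L μ P U (f a)‖ ^ 2 ≤ ∑ a ∈ range M, ∑ b ∈ range M,
      ‖L μ P U (fun i p => f a i p * (starRingEnd ℂ) (f b i p))‖ := by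
  have h1 : Tendsto (fun n => ‖∑ a ∈ range M, C μ P n (f a)‖ ^ 2) U (𝓝 (‖∑ a ∈ range M, L μ P U (f a)‖ ^ 2)) :=
    (tendsto_finsetSum _ fun a _ => tendsto_L (hf a)).norm.pow 2
  have h2 : Tendsto (fun n => ∑ a ∈ range M, ∑ b ∈ range M,
      ‖C μ P n (fun i p => f a i p * (starRingEnd ℂ) (f b i p))‖) U
      (𝓝 (∑ a ∈ range M, ∑ b ∈ range M, ‖L μ P U (fun i p => f a i p * (starRingEnd ℂ) (f b i p))‖)) :=
    (tendsto_finsetSum _ fun a _ => tendsto_finsetSum _ fun b _ =>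
      (tendsto_L fun i => (hf a i).mul (hf b i).conj).norm)
  refine le_of_tendsto_of_tendsto' h1 h2 fun n => ?_
  have h3 := cs (μ := μ) (Bd.const (X := X) 1) 1 (fun p => by simp) M
    (fun a p => ∏ i, f a i (P (n i) p)) (fun a => Bd.tuple hP (hf a) n _)
  simp only [one_mul, one_pow] at h3
  have e2 : ∀ a b, C μ P n (fun i p => f a i p * (starRingEnd ℂ) (f b i p)) =
      ∫ p, (∏ i, f a i (P (n i) p)) * (starRingEnd ℂ) (∏ i, f b i (P (n i) p)) ∂μ := by
    intro a b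
    unfold C
    congr 1; funext p
    rw [map_prod, prod_mul_distrib]
  simp only [e2]
  exact h3

end Pool.Agent.W42.RN
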