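import Mathlib
import Pool.Agent.W42.RN.Lam

set_option autoImplicit false
set_option linter.unusedSectionVars false
set_option linter.unusedVariables false

/-!
The shearing identity for limits of correlations.
-/

namespace Pool.Agent.W42.RN

open MeasureTheory Filter Topology Finset

variable {X : Type} [MeasurableSpace X]

/-- time vectors whose entries are far apart -/
def spread (N : ℕ) : Filter (Fin N → ℤ) where
  sets := {s | ∃ M : ℕ, ∀ n : Fin N → ℤ, (∀ i j, i ≠ j → (M : ℤ) ≤ |n i - n j|) → n ∈ s}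
  univ_sets := ⟨0, fun _ _ => Set.mem_univ _⟩
  sets_of_superset := fun ⟨M, hM⟩ hst => ⟨M, fun n hn => hst (hM n hn)⟩
  inter_sets := fun {s t} ⟨M, hM⟩ ⟨M', hM'⟩ => ⟨max M M', fun n hn =>
    ⟨hM n fun i j h => by
      have h1 := hn i j h
      have h2 : ((M : ℕ) : ℤ) ≤ ((max M M' : ℕ) : ℤ) := by exact_mod_cast le_max_left M M'
      exact h2.trans h1,
     hM' n fun i j h => by
      have h1 := hn i j h
      have h2 : ((M' : ℕ) : ℤ) ≤ ((max M M' : ℕ) : ℤ) := by exact_mod_cast le_max_right M M'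
      exact h2.trans h1⟩⟩

theorem mem_spread {N : ℕ} {s : Set (Fin N → ℤ)} :
    s ∈ spread N ↔ ∃ M : ℕ, ∀ n : Fin N → ℤ, (∀ i j, i ≠ j → (M : ℤ) ≤ |n i - n j|) → n ∈ s := Iff.rfl

/-- two maps agree on the measure algebra -/
def Same (μ : Measure X) (S S' : X → X) : Prop :=
  ∀ A, MeasurableSet A → S ⁻¹' A =ᵐ[μ] S' ⁻¹' A

theorem Same.fn {μ : Measure X} {S S' : X → X} (h : Same μ S S') {g : X → ℂ} (hg : Measurable g) :
    (fun p => g (S p)) =ᵐ[μ] fun p => g (S' p) := by
  obtain ⟨B, hBc, _, hB⟩ := TopologicalSpace.exists_countable_basis ℂ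
  have h1 : ∀ V ∈ B, ∀ᵐ p ∂μ, (S p ∈ g ⁻¹' V ↔ S' p ∈ g ⁻¹' V) := fun V hV => by
    have h2 := h (g ⁻¹' V) (hg (hB.isOpen hV).measurableSet)
    exact eventuallyEq_set.1 h2
  have h3 : ∀ᵐ p ∂μ, ∀ V ∈ B, (S p ∈ g ⁻¹' V ↔ S' p ∈ g ⁻¹' V) := (ae_ball_iff hBc).2 h1
  filter_upwards [h3] with p hp
  by_contra hne
  obtain ⟨V, W, hV, hW, hSV, hSW, hVW⟩ := t2_separation hne
  obtain ⟨V', hV', h4, h5⟩ := hB.exists_subset_of_mem_open hSV hV
  have h6 : g (S' p) ∈ V' := (hp V' hV').1 h4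
  exact Set.disjoint_left.1 hVW (h5 h6) hSW

theorem Same.left {μ : Measure X} {S S' R : X → X} (h : Same μ S S') (hR : Measurable R) :
    Same μ (R ∘ S) (R ∘ S') := fun A hA => h (R ⁻¹' A) (hR hA)

theorem Same.right {μ : Measure X} {S S' R : X → X} (h : Same μ S S') (hR : MeasurePreserving R μ μ) :
    Same μ (S ∘ R) (S' ∘ R) := fun A hA =>
  hR.quasiMeasurePreserving.preimage_ae_eq (h A hA)

theorem Same.trans {μ : Measure X} {S S' S'' : X → X} (h : Same μ S S') (h' : Same μ S' S'') :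
    Same μ S S'' := fun A hA => (h A hA).trans (h' A hA)

theorem Same.symm {μ : Measure X} {S S' : X → X} (h : Same μ S S') : Same μ S' S :=
  fun A hA => (h A hA).symm

/-- a measure preserving flow, continuous in the mean; the group law is only required on the
measure algebra -/
structure Flow (μ : Measure X) (z : ℝ → X → X) : Prop where
  mp : ∀ u, MeasurePreserving (z u) μ μ
  zero : Same μ (z 0) id
  add : ∀ u v, Same μ (z (u + v)) (z u ∘ z v)
  cont : ∀ f : X → ℂ, Bd f → ∀ u, Tendsto (fun v => ∫ p, ‖f (z v p) - f (z u p)‖ ∂μ) (𝓝 u) (𝓝 0)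

/-- `P` shears the perturbations `x ε` along the flow `z` with rate `r`, forwards and backwards -/
def Shears (μ : Measure X) (P : ℤ → X → X) (x : ℝ → X → X) (z : ℝ → X → X) (r : ℤ → ℝ) : Prop :=
  ∀ f : X → ℂ, Bd f → ∀ U δ : ℝ, 0 < U → 0 < δ → ∃ ε₀ > 0, ∀ ε : ℝ, 0 < ε → ε < ε₀ →
    ∀ m : ℤ, ε * |r m| ≤ U →
      ∫ p, ‖f (P m (x ε p)) - f (z (ε * r m) (P m p))‖ ∂μ ≤ δ

/-- a rate of shearing: it vanishes at zero, tends to infinity and is doubling -/
structure Rate (r : ℤ → ℝ) : Prop where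
  zero : r 0 = 0
  lim : ∀ b : ℝ, ∃ M : ℕ, ∀ m : ℤ, (M : ℤ) ≤ |m| → b ≤ |r m|
  dbl : ∃ D : ℝ, ∀ m m' : ℤ, |m| ≤ 2 * |m'| → |r m| ≤ D * |r m'|

variable {μ : Measure X} [IsProbabilityMeasure μ] {P : ℤ → X → X} {N : ℕ} {U : Ultrafilter (Fin N → ℤ)}

theorem C_shift (hP : Act μ P) {f : Fin N → X → ℂ} (hf : ∀ i, Bd (f i)) (n : Fin N → ℤ) (t : ℤ) :
    C μ P n f = ∫ q, ∏ i, f i (P (n i - t) q) ∂μ := by
  unfold C
  rw [← comp_int (hP.mp t) (g := fun q => ∏ i, f i (P (n i - t) q)) (Bd.tuple hP hf _ _).meas]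
  congr 1; funext p
  refine prod_congr rfl fun i _ => ?_
  have h1 := congrFun (hP.add (n i - t) t) p
  rw [Function.comp_apply, sub_add_cancel] at h1
  rw [h1]

theorem shear (hP : Act μ P) {x z : ℝ → X → X} {r : ℤ → ℝ} (hr : Rate r)
    (hx : ∀ ε, MeasurePreserving (x ε) μ μ) (hz : Flow μ z) (hs : Shears μ P x z r)
    (hU : (U : Filter (Fin N → ℤ)) ≤ spread N) (j : Fin N) (hN : ∃ i : Fin N, i ≠ j) :
    ∃ c, c ≠ j ∧ ∃ ρ : Fin N → ℝ, ρ c = 0 ∧ (ρ j = 1 ∨ ρ j = -1) ∧
      ∀ u : ℝ, 0 < u → ∀ f : Fin N → X → ℂ, (∀ i, Bd (f i)) →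
        L μ P U (fun i p => f i (z (u * ρ i) p)) = L μ P U f := by
  have hfar : ∀ M : ℕ, ∀ᶠ n in (U : Filter (Fin N → ℤ)), ∀ i i', i ≠ i' → (M : ℤ) ≤ |n i - n i'| :=
    fun M => hU ⟨M, fun n hn => hn⟩
  obtain ⟨c, hc⟩ : ∃ c, ∀ᶠ n in (U : Filter (Fin N → ℤ)), ∀ i, |n i - n j| ≤ |n c - n j| := by
    by_contra hcon
    push Not at hcon
    have h1 : ∀ c, ∀ᶠ n in (U : Filter (Fin N → ℤ)), ¬ (∀ i, |n i - n j| ≤ |n c - n j|) := by
      intro c
      rw [Ultrafilter.eventually_not]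
      intro h
      obtain ⟨i, hi⟩ := (h.and (hcon c)).exists
      obtain ⟨i', hi'⟩ := hi.2
      exact absurd (hi.1 i') (not_le.2 hi')
    have h2 : ∀ᶠ n in (U : Filter (Fin N → ℤ)), ∀ c, ¬ (∀ i, |n i - n j| ≤ |n c - n j|) :=
      eventually_all.2 h1
    obtain ⟨n, hn⟩ := h2.exists
    have : Nonempty (Fin N) := ⟨j⟩
    obtain ⟨c, hc⟩ := Finite.exists_max (fun c => |n c - n j|)
    exact hn c hc
  have hcj : c ≠ j := by
    rintro rfl
    obtain ⟨i0, hi0⟩ := hN
    obtain ⟨n, hn1, hn2⟩ := (hc.and (hfar 1)).exists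
    have h1 := hn1 i0
    have h2 := hn2 i0 c hi0
    rw [sub_self, abs_zero] at h1
    push_cast at h2
    omega
  refine ⟨c, hcj, ?_⟩
  set D : (Fin N → ℤ) → ℝ := fun n => |r (n j - n c)| with hD
  have hDt : Tendsto D U atTop := by
    rw [tendsto_atTop]
    intro b
    obtain ⟨M, hM⟩ := hr.lim b
    filter_upwards [hfar M] with n hn
    exact hM _ (hn j c hcj.symm)
  have hD1 : ∀ᶠ n in (U : Filter (Fin N → ℤ)), 1 ≤ D n := hDt.eventually_ge_atTop 1
  obtain ⟨Q, hQ⟩ := hr.dbl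
  have hm : ∀ i, ∀ᶠ n in (U : Filter (Fin N → ℤ)), |r (n i - n c)| ≤ Q * D n := by
    intro i
    filter_upwards [hc] with n hn
    have h1 := hn i
    have h2 : |n i - n c| ≤ 2 * |n j - n c| := by
      have h3 : |n i - n c| ≤ |n i - n j| + |n j - n c| := abs_sub_le _ _ _
      rw [abs_sub_comm (n c)] at h1
      omega
    exact hQ _ _ h2
  have hlim : ∀ i, ∃ t, Tendsto (fun n : Fin N → ℤ => r (n i - n c) / D n) U (𝓝 t) := by
    intro i
    apply ultra_lim_real U _ Q
    filter_upwards [hm i, hD1] with n h1 h2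
    rw [abs_div, abs_of_nonneg (by linarith : 0 ≤ D n), div_le_iff₀ (by linarith)]
    exact h1
  choose ρ hρ using hlim
  refine ⟨ρ, ?_, ?_, ?_⟩
  · have h1 : Tendsto (fun n : Fin N → ℤ => r (n c - n c) / D n) U (𝓝 0) := by
      have : (fun n : Fin N → ℤ => r (n c - n c) / D n) = fun _ => 0 := by
        funext n
        rw [sub_self, hr.zero, zero_div]
      rw [this]
      exact tendsto_const_nhds
    exact tendsto_nhds_unique (hρ c) h1
  · have h1 : Tendsto (fun n : Fin N → ℤ => |r (n j - n c) / D n|) U (𝓝 |ρ j|) := (hρ j).abs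
    have h2 : Tendsto (fun n : Fin N → ℤ => |r (n j - n c) / D n|) U (𝓝 1) := by
      refine tendsto_const_nhds.congr' ?_
      filter_upwards [hD1] with n hn
      rw [abs_div, abs_of_nonneg (by linarith : 0 ≤ D n)]
      have : |r (n j - n c)| = D n := rfl
      rw [this, div_self (by linarith)]
    have h3 := tendsto_nhds_unique h1 h2
    rcases (abs_eq zero_le_one).1 h3 with h | h
    · exact Or.inl h
    · exact Or.inr h
  · intro u hu f hf
    set g : Fin N → X → ℂ := fun i p => f i (z (u * ρ i) p) with hg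
    have hgB : ∀ i, Bd (g i) := fun i => (hf i).comp (hz.mp _).measurable
    obtain ⟨K, hK1, hK⟩ := Bd.common hf
    set ε : (Fin N → ℤ) → ℝ := fun n => u / D n with hε
    have hε0 : Tendsto ε U (𝓝 0) := Tendsto.const_div_atTop hDt u
    -- the errors
    have hE : ∀ i, Tendsto (fun n : Fin N → ℤ => ∫ q, ‖f i (P (n i - n c) (x (ε n) q)) -
        g i (P (n i - n c) q)‖ ∂μ) U (𝓝 0) := by
      intro i
      have hB : Tendsto (fun n : Fin N → ℤ => ∫ q, ‖f i (z (ε n * r (n i - n c)) q) -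
          f i (z (u * ρ i) q)‖ ∂μ) U (𝓝 0) := by
        have h1 : Tendsto (fun n : Fin N → ℤ => ε n * r (n i - n c)) U (𝓝 (u * ρ i)) := by
          refine ((hρ i).const_mul u).congr fun n => ?_
          simp only [hε]
          ring
        exact (hz.cont (f i) (hf i) (u * ρ i)).comp h1
      rw [Metric.tendsto_nhds]
      intro δ hδ
      obtain ⟨ε₀, hε₀, hs1⟩ := hs (f i) (hf i) (u * (|Q| + 1)) (δ / 2 / 2) (by positivity) (by positivity)
      filter_upwards [hε0.eventually_lt_const hε₀, (Metric.tendsto_nhds.1 hB) (δ / 2) (by positivity),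
        hD1, hm i] with n g1 g2 g3 g4
      have hDp : 0 < D n := by linarith
      have hεp : 0 < ε n := by simp only [hε]; positivity
      have hbd : ε n * |r (n i - n c)| ≤ u * (|Q| + 1) := by
        have h1 : |r (n i - n c)| ≤ (|Q| + 1) * D n := by
          have := le_abs_self Q
          nlinarith
        calc _ ≤ ε n * ((|Q| + 1) * D n) := mul_le_mul_of_nonneg_left h1 hεp.le
          _ = u * (|Q| + 1) := by simp only [hε]; field_simp
      have g5 := hs1 (ε n) hεp g1 (n i - n c) hbd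
      rw [Real.dist_eq, sub_zero, abs_of_nonneg (integral_nonneg fun p => norm_nonneg _)] at g2 ⊢
      set m := n i - n c with hm'
      set s := ε n * r m with hs'
      have b1 : Bd fun p => f i (P m (x (ε n) p)) := ((hf i).comp (hP.mp m).measurable).comp (hx _).measurable
      have b2 : Bd fun p => f i (z s (P m p)) := ((hf i).comp (hz.mp s).measurable).comp (hP.mp m).measurable
      have b3 : Bd fun p => f i (z (u * ρ i) (P m p)) := ((hf i).comp (hz.mp _).measurable).comp (hP.mp m).measurable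
      have h6 : ∫ p, ‖f i (z s (P m p)) - f i (z (u * ρ i) (P m p))‖ ∂μ =
          ∫ p, ‖f i (z s p) - f i (z (u * ρ i) p)‖ ∂μ :=
        comp_int (hP.mp m) (g := fun p => ‖f i (z s p) - f i (z (u * ρ i) p)‖)
          (((hf i).comp (hz.mp s).measurable).meas.sub ((hf i).comp (hz.mp _).measurable).meas).norm
      have h7 : ∫ p, ‖f i (P m (x (ε n) p)) - f i (z (u * ρ i) (P m p))‖ ∂μ ≤
          ∫ p, ‖f i (P m (x (ε n) p)) - f i (z s (P m p))‖ ∂μ +
          ∫ p, ‖f i (z s (P m p)) - f i (z (u * ρ i) (P m p))‖ ∂μ := by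
        have hi1 : Integrable (fun p => ‖f i (P m (x (ε n) p)) - f i (z s (P m p))‖) μ := (b1.int.sub b2.int).norm
        have hi2 : Integrable (fun p => ‖f i (z s (P m p)) - f i (z (u * ρ i) (P m p))‖) μ :=
          (b2.int.sub b3.int).norm
        rw [← integral_add hi1 hi2]
        apply integral_mono (b1.int.sub b3.int).norm (hi1.add hi2)
        intro p
        exact norm_sub_le_norm_sub_add_norm_sub _ _ _
      rw [h6] at h7
      have : δ / 2 / 2 < δ / 2 := by linarith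
      show ∫ p, ‖f i (P m (x (ε n) p)) - f i (z (u * ρ i) (P m p))‖ ∂μ < δ
      linarith
    have hsum : Tendsto (fun n : Fin N → ℤ => K ^ N * ∑ i, ∫ q, ‖f i (P (n i - n c) (x (ε n) q)) -
        g i (P (n i - n c) q)‖ ∂μ) U (𝓝 0) := by
      have := (tendsto_finsetSum univ fun i _ => hE i).const_mul (K ^ N)
      simpa using this
    have hdiff : Tendsto (fun n : Fin N → ℤ => C μ P n f - C μ P n g) U (𝓝 0) := by
      refine squeeze_zero_norm (fun n => ?_) hsum
      rw [C_shift hP hf n (n c), C_shift hP hgB n (n c)]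
      have h1 : ∫ q, ∏ i, f i (P (n i - n c) q) ∂μ = ∫ q, ∏ i, f i (P (n i - n c) (x (ε n) q)) ∂μ :=
        (comp_int (hx (ε n)) (g := fun q => ∏ i, f i (P (n i - n c) q)) (Bd.tuple hP hf _ _).meas).symm
      have b1 : Bd fun q => ∏ i, f i (P (n i - n c) (x (ε n) q)) :=
        (Bd.tuple hP hf (fun i => n i - n c) univ).comp (hx (ε n)).measurable
      have b2 : Bd fun q => ∏ i, g i (P (n i - n c) q) := Bd.tuple hP hgB _ _
      have hi : ∀ i, Integrable (fun q => ‖f i (P (n i - n c) (x (ε n) q)) - g i (P (n i - n c) q)‖) μ := fun i =>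
        ((((hf i).comp (hP.mp _).measurable).comp (hx _).measurable).int.sub
          ((hgB i).comp (hP.mp (n i - n c)).measurable).int).norm
      rw [h1, ← integral_sub b1.int b2.int, ← integral_finsetSum _ fun i _ => hi i, ← integral_const_mul]
      refine (norm_integral_le_integral_norm _).trans ?_
      apply integral_mono (b1.int.sub b2.int).norm ((integrable_finsetSum _ fun i _ => hi i).const_mul _)
      intro q
      have h2 := prod_sub_le univ (fun i => f i (P (n i - n c) (x (ε n) q))) (fun i => g i (P (n i - n c) q)) K hK1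
        (fun i => hK i _) (fun i => hK i _)
      rw [card_univ, Fintype.card_fin] at h2
      exact h2
    apply L_eq hgB
    have := (tendsto_L (μ := μ) (P := P) (U := U) hf).sub hdiff
    simpa using this

end Pool.Agent.W42.RN
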