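import Mathlib
import Pool.Agent.W42.RN.Shear

set_option autoImplicit false
set_option linter.unusedSectionVars false
set_option linter.unusedVariables false

/-!
Multilinear functionals and the two main steps.
-/

namespace Pool.Agent.W42.RN

open MeasureTheory Filter Topology Finset

variable {X : Type} [MeasurableSpace X]

/-- multilinear on bounded tuples -/
structure ML {N : ℕ} (D : (Fin N → X → ℂ) → ℂ) : Prop where
  add : ∀ f : Fin N → X → ℂ, (∀ i, Bd (f i)) → ∀ j (g h : X → ℂ), Bd g → Bd h →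
    D (Function.update f j (g + h)) = D (Function.update f j g) + D (Function.update f j h)
  smul : ∀ f : Fin N → X → ℂ, (∀ i, Bd (f i)) → ∀ j (g : X → ℂ), Bd g → ∀ c : ℂ,
    D (Function.update f j (c • g)) = c * D (Function.update f j g)

/-- `h` is negligible for `D` -/
def Negl {N : ℕ} (D : (Fin N → X → ℂ) → ℂ) (h : X → ℂ) (η : ℝ) : Prop :=
  ∀ K : ℝ, 1 ≤ K → ∀ f : Fin N → X → ℂ, (∀ i, Bd (f i)) → (∀ i p, ‖f i p‖ ≤ K) → ∀ j,
    ‖D (Function.update f j h)‖ ≤ η * K ^ (N + 1)

theorem upgrade {N : ℕ} {D : (Fin N → X → ℂ) → ℂ} (hD : ML D) (A B : Set (X → ℂ))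
    (hA : ∀ f ∈ A, Bd f) (hB : ∀ f ∈ B, Bd f)
    (happ : ∀ f ∈ B, ∀ η : ℝ, 0 < η → ∃ g ∈ Submodule.span ℂ A, Negl D (f - g) η)
    (h0 : ∀ f : Fin N → X → ℂ, (∀ i, f i ∈ A) → D f = 0) :
    ∀ f : Fin N → X → ℂ, (∀ i, f i ∈ B) → D f = 0 := by
  classical
  have key : ∀ (s : Finset (Fin N)) (f : Fin N → X → ℂ), (∀ i ∈ s, f i ∈ B) → (∀ i ∉ s, f i ∈ A) → D f = 0 := by
    intro s
    induction s using Finset.induction_on with
    | empty => intro f _ h; exact h0 f fun i => h i (notMem_empty i)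
    | insert j s hj ih =>
      intro f h1 h2
      have hf : ∀ i, Bd (f i) := by
        intro i
        by_cases hi : i ∈ insert j s
        · exact hB _ (h1 i hi)
        · exact hA _ (h2 i hi)
      have hspan : ∀ g ∈ Submodule.span ℂ A, Bd g ∧ D (Function.update f j g) = 0 := by
        intro g hg
        induction hg using Submodule.span_induction with
        | mem g hg =>
          refine ⟨hA g hg, ih _ ?_ ?_⟩
          · intro i hi
            have hij : i ≠ j := by rintro rfl; exact hj hi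
            rw [Function.update_of_ne hij]
            exact h1 i (mem_insert_of_mem hi)
          · intro i hi
            by_cases h : i = j
            · subst h; rw [Function.update_self]; exact hg
            · rw [Function.update_of_ne h]
              refine h2 i fun h3 => ?_
              rcases mem_insert.1 h3 with h4 | h4
              · exact h h4
              · exact hi h4
        | zero =>
          have hz : Bd (0 : X → ℂ) := Bd.const 0
          refine ⟨hz, ?_⟩
          have := hD.smul f hf j 0 hz 0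
          simpa using this
        | add g h _ _ hg hh =>
          refine ⟨hg.1.add hh.1, ?_⟩
          rw [hD.add f hf j g h hg.1 hh.1, hg.2, hh.2, add_zero]
        | smul c g _ hg =>
          refine ⟨hg.1.smul c, ?_⟩
          rw [hD.smul f hf j g hg.1 c, hg.2, mul_zero]
      obtain ⟨K, hK1, hK⟩ := Bd.common hf
      have hle : ∀ η : ℝ, 0 < η → ‖D f‖ ≤ η := by
        intro η hη
        obtain ⟨g, hg, hn⟩ := happ (f j) (h1 j (mem_insert_self j s)) (η / K ^ (N + 1)) (by positivity)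
        obtain ⟨hgB, hg0⟩ := hspan g hg
        have e : f = Function.update f j ((f j - g) + g) := by
          rw [sub_add_cancel, Function.update_eq_self]
        have h3 := hD.add f hf j (f j - g) g ((hf j).sub hgB) hgB
        rw [← e, hg0, add_zero] at h3
        rw [h3]
        refine (hn K hK1 f hf hK j).trans (le_of_eq ?_)
        field_simp
      have h4 : ‖D f‖ ≤ 0 := le_of_forall_pos_le_add fun η hη => by simpa using hle η hη
      exact norm_le_zero_iff.1 h4
  intro f hf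
  exact key univ f (fun i _ => hf i) (fun i hi => absurd (mem_univ i) hi)

theorem norm_prod_le_factor {N : ℕ} (F : Fin N → ℂ) (j : Fin N) (R : ℝ) (hR : 1 ≤ R)
    (h : ∀ i, i ≠ j → ‖F i‖ ≤ R) : ‖∏ i, F i‖ ≤ R ^ N * ‖F j‖ := by
  rw [← mul_prod_erase univ _ (mem_univ j), norm_mul, mul_comm]
  apply mul_le_mul_of_nonneg_right _ (norm_nonneg _)
  rw [norm_prod]
  calc ∏ i ∈ univ.erase j, ‖F i‖ ≤ ∏ _i ∈ univ.erase j, R :=
        prod_le_prod (fun _ _ => norm_nonneg _) (fun i hi => h i (ne_of_mem_erase hi))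
    _ = R ^ (N - 1) := by rw [prod_const, card_erase_of_mem (mem_univ j), card_univ, Fintype.card_fin]
    _ ≤ R ^ N := pow_le_pow_right₀ hR (Nat.sub_le _ _)

variable {μ : Measure X} [IsProbabilityMeasure μ] {P : ℤ → X → X}

/-- mixing for tuples of `N` bounded functions -/
def MixAll (μ : Measure X) (P : ℤ → X → X) (N : ℕ) : Prop :=
  ∀ f : Fin N → X → ℂ, (∀ i, Bd (f i)) →
    Tendsto (fun n => C μ P n f) (spread N) (𝓝 (∏ i, ∫ p, f i p ∂μ))

theorem prod_int_update {N : ℕ} (f : Fin N → X → ℂ) (j : Fin N) (g : X → ℂ) :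
    ∏ i, ∫ p, Function.update f j g i p ∂μ = (∫ p, g p ∂μ) * ∏ i ∈ univ.erase j, ∫ p, f i p ∂μ := by
  rw [← mul_prod_erase univ _ (mem_univ j), Function.update_self]
  congr 1
  refine prod_congr rfl fun i hi => ?_
  rw [Function.update_of_ne (ne_of_mem_erase hi)]

/-- the defect -/
noncomputable def Def (μ : Measure X) (P : ℤ → X → X) {N : ℕ} (U : Ultrafilter (Fin N → ℤ))
    (f : Fin N → X → ℂ) : ℂ := L μ P U f - ∏ i, ∫ p, f i p ∂μ

theorem ml_def (hP : Act μ P) {N : ℕ} {U : Ultrafilter (Fin N → ℤ)} : ML (Def μ P U) := by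
  refine ⟨fun f hf j g h hg hh => ?_, fun f hf j g hg c => ?_⟩
  · unfold Def
    rw [L_add hP hf j hg hh, prod_int_update, prod_int_update, prod_int_update]
    have : ∫ p, (g + h) p ∂μ = ∫ p, g p ∂μ + ∫ p, h p ∂μ := by
      rw [← integral_add hg.int hh.int]; rfl
    rw [this]; ring
  · unfold Def
    rw [L_smul hf j hg c, prod_int_update, prod_int_update]
    have : ∫ p, (c • g) p ∂μ = c * ∫ p, g p ∂μ := by
      rw [← integral_const_mul]; rfl
    rw [this]; ring

theorem L_drop {N : ℕ} (h : MixAll μ P N) {U : Ultrafilter (Fin (N + 1) → ℤ)}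
    (hU : (U : Filter (Fin (N + 1) → ℤ)) ≤ spread (N + 1)) (c : Fin (N + 1))
    {f : Fin (N + 1) → X → ℂ} (hf : ∀ i, Bd (f i)) :
    L μ P U (Function.update f c fun _ => 1) = ∏ i, ∫ p, Function.update f c (fun _ => 1) i p ∂μ := by
  apply L_eq (Bd.update hf c (Bd.const 1))
  have h1 : Tendsto (fun n : Fin (N + 1) → ℤ => fun i : Fin N => n (c.succAbove i)) U (spread N) := by
    intro s hs
    obtain ⟨M, hM⟩ := mem_spread.1 hs
    have h2 : {n : Fin (N + 1) → ℤ | ∀ i j, i ≠ j → (M : ℤ) ≤ |n i - n j|} ∈ (U : Filter (Fin (N + 1) → ℤ)) :=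
      hU ⟨M, fun n hn => hn⟩
    rw [Filter.mem_map]
    filter_upwards [h2] with n hn
    exact hM _ fun i j hij => hn _ _ fun h => hij (Fin.succAbove_right_injective h)
  have h2 := (h (fun i => f (c.succAbove i)) (fun i => hf _)).comp h1
  have e1 : ∏ i, ∫ p, Function.update f c (fun _ => 1) i p ∂μ = ∏ i, ∫ p, f (c.succAbove i) p ∂μ := by
    rw [Fin.prod_univ_succAbove _ c, Function.update_self]
    simp
  rw [e1]
  refine h2.congr fun n => ?_
  simp only [Function.comp_apply]
  unfold C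
  congr 1; funext p
  rw [Fin.prod_univ_succAbove _ c, Function.update_self, one_mul]
  refine prod_congr rfl fun i _ => ?_
  rw [Function.update_of_ne (Fin.succAbove_ne c i)]

theorem L_congr_ae (hP : Act μ P) {N : ℕ} {U : Ultrafilter (Fin N → ℤ)} {f g : Fin N → X → ℂ}
    (hf : ∀ i, Bd (f i)) (hg : ∀ i, Bd (g i)) (h : ∀ i, f i =ᵐ[μ] g i) : L μ P U f = L μ P U g := by
  apply L_congr hf hg
  intro n
  unfold C
  apply integral_congr_ae
  have h1 : ∀ i, (fun p => f i (P (n i) p)) =ᵐ[μ] fun p => g i (P (n i) p) := fun i =>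
    (hP.mp (n i)).quasiMeasurePreserving.ae_eq_comp (h i)
  have h2 : ∀ᵐ p ∂μ, ∀ i, f i (P (n i) p) = g i (P (n i) p) := ae_all_iff.2 h1
  filter_upwards [h2] with p hp
  exact prod_congr rfl fun i _ => hp i

theorem flow_inv {z : ℝ → X → X} (hz : Flow μ z) {h : X → ℂ} (hh : Bd h) (a b t : ℝ) :
    ∫ p, h (z (a + t) p) * (starRingEnd ℂ) (h (z (b + t) p)) ∂μ =
      ∫ p, h (z a p) * (starRingEnd ℂ) (h (z b p)) ∂μ := by
  rw [← comp_int (hz.mp t) (g := fun p => h (z a p) * (starRingEnd ℂ) (h (z b p)))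
    ((hh.comp (hz.mp a).measurable).mul (hh.comp (hz.mp b).measurable).conj).meas]
  apply integral_congr_ae
  filter_upwards [(hz.add a t).fn hh.meas, (hz.add b t).fn hh.meas] with p g1 g2
  rw [g1, g2]
  rfl

theorem norm_flow_neg {z : ℝ → X → X} (hz : Flow μ z) {h : X → ℂ} (hh : Bd h) (a b : ℝ) :
    ‖∫ p, h (z (-a) p) * (starRingEnd ℂ) (h (z (-b) p)) ∂μ‖ =
      ‖∫ p, h (z a p) * (starRingEnd ℂ) (h (z b p)) ∂μ‖ := by
  have h1 := flow_inv hz hh (-a) (-b) (a + b)
  have e1 : -a + (a + b) = b := by ring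
  have e2 : -b + (a + b) = a := by ring
  rw [e1, e2] at h1
  rw [← h1, ← RCLike.norm_conj, ← integral_conj]
  congr 2; funext p
  rw [map_mul, Complex.conj_conj, mul_comm]

/-- the step for a function of small correlations along the sheared flow -/
theorem stepW (hP : Act μ P) {x z : ℝ → X → X} {r : ℤ → ℝ} (hr : Rate r)
    (hx : ∀ ε, MeasurePreserving (x ε) μ μ) (hz : Flow μ z) (hs : Shears μ P x z r)
    {N : ℕ} (hN : 1 ≤ N) (hmix : MixAll μ P N) {U : Ultrafilter (Fin (N + 1) → ℤ)}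
    (hU : (U : Filter (Fin (N + 1) → ℤ)) ≤ spread (N + 1)) (j : Fin (N + 1))
    {f : Fin (N + 1) → X → ℂ} (hf : ∀ i, Bd (f i)) (K : ℝ) (hK1 : 1 ≤ K) (hK : ∀ i p, ‖f i p‖ ≤ K)
    {h : X → ℂ} (hh : Bd h) (M : ℕ) (hM : 0 < M) (η : ℝ)
    (hη : ∑ a ∈ range M, ∑ b ∈ range M, ‖∫ p, h (z (a : ℝ) p) * (starRingEnd ℂ) (h (z (b : ℝ) p)) ∂μ‖
      ≤ η * (M : ℝ) ^ 2) :
    ‖L μ P U (Function.update f j h)‖ ^ 2 ≤ η * (K ^ (N + 2)) ^ 2 := by
  obtain ⟨c, hcj, ρ, hρc, hρj, hsh⟩ := shear hP hr hx hz hs hU j (by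
    by_cases h0 : j = 0
    · refine ⟨Fin.last N, fun h1 => ?_⟩
      rw [h0] at h1
      have := congrArg Fin.val h1
      simp at this
      omega
    · exact ⟨0, fun h1 => h0 h1.symm⟩)
  set f' := Function.update f j h with hf'
  have hf'B : ∀ i, Bd (f' i) := Bd.update hf j hh
  set F : ℕ → Fin (N + 1) → X → ℂ := fun a =>
    Function.update (fun i p => f' i (z (((a : ℝ) + 1) * ρ i) p)) c (f c) with hF
  have hFB : ∀ a i, Bd (F a i) := fun a =>
    Bd.update (fun i => (hf'B i).comp (hz.mp _).measurable) c (hf c)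
  have h1 : ∀ a, L μ P U (F a) = L μ P U f' := by
    intro a
    rw [← hsh ((a : ℝ) + 1) (by positivity) f' hf'B]
    apply L_congr_ae hP (hFB a) (fun i => (hf'B i).comp (hz.mp _).measurable)
    intro i
    by_cases hi : i = c
    · subst hi
      simp only [hF, Function.update_self]
      rw [hρc, mul_zero]
      have h2 := hz.zero.fn (hf i).meas
      have h3 : f' i = f i := by rw [hf', Function.update_of_ne hcj]
      rw [h3]
      exact h2.symm
    · simp only [hF]
      rw [Function.update_of_ne hi]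
  have hFc : ∀ a, F a c = f c := by
    intro a
    simp only [hF, Function.update_self]
  have h2 := L_cs1 hP c M F hFB (f c) (hf c) hFc K (hK c) (U := U)
  have h3 : ‖∑ a ∈ range M, L μ P U (F a)‖ ^ 2 = (M : ℝ) ^ 2 * ‖L μ P U f'‖ ^ 2 := by
    simp_rw [h1]
    rw [sum_const, card_range, nsmul_eq_mul, norm_mul, Complex.norm_natCast]
    ring
  rw [h3] at h2
  have hF1 : ∀ a i p, i ≠ j → ‖F a i p‖ ≤ K := by
    intro a i p hi
    by_cases hic : i = c
    · subst hic
      rw [hFc]; exact hK _ _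
    · simp only [hF, hf']
      rw [Function.update_of_ne hic, Function.update_of_ne hi]
      exact hK _ _
  have hterm : ∀ a b : ℕ, ‖L μ P U (Function.update (fun i p => F a i p * (starRingEnd ℂ) (F b i p)) c fun _ => 1)‖
      ≤ (K ^ 2) ^ (N + 1) * ‖∫ p, h (z (a : ℝ) p) * (starRingEnd ℂ) (h (z (b : ℝ) p)) ∂μ‖ := by
    intro a b
    rw [L_drop hmix hU c fun i => (hFB a i).mul (hFB b i).conj]
    have h4 := norm_prod_le_factor (fun i => ∫ p, Function.update (fun i p => F a i p * (starRingEnd ℂ) (F b i p)) c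
      (fun _ => 1) i p ∂μ) j (K ^ 2) (one_le_pow₀ hK1) (by
        intro i hi
        by_cases hic : i = c
        · subst hic
          simp only [Function.update_self]
          have e1 : ‖∫ _p : X, (1 : ℂ) ∂μ‖ = 1 := by simp
          rw [e1]
          exact one_le_pow₀ hK1
        · simp only [Function.update_of_ne hic]
          apply norm_int_le
          intro p
          rw [norm_mul, RCLike.norm_conj]
          have g1 := hF1 a i p hi
          have g2 := hF1 b i p hi
          calc _ ≤ K * K := mul_le_mul g1 g2 (norm_nonneg _) (by linarith)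
            _ = K ^ 2 := by ring)
    refine h4.trans (le_of_eq ?_)
    congr 1
    rw [Function.update_of_ne hcj.symm]
    have e : ∀ a : ℕ, F a j = fun p => h (z (((a : ℝ) + 1) * ρ j) p) := by
      intro a
      simp only [hF, hf']
      rw [Function.update_of_ne hcj.symm, Function.update_self]
    rw [e, e]
    rcases hρj with h5 | h5
    · rw [h5, mul_one, mul_one, flow_inv hz hh a b 1]
    · rw [h5]
      have e1 : ((a : ℝ) + 1) * (-1) = -((a : ℝ) + 1) := by ring
      have e2 : ((b : ℝ) + 1) * (-1) = -((b : ℝ) + 1) := by ring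
      rw [e1, e2, norm_flow_neg hz hh, flow_inv hz hh a b 1]
  have h5 : (M : ℝ) ^ 2 * ‖L μ P U f'‖ ^ 2 ≤ K ^ 2 * ((K ^ 2) ^ (N + 1) * (η * (M : ℝ) ^ 2)) := by
    refine h2.trans (mul_le_mul_of_nonneg_left ?_ (by positivity))
    calc _ ≤ ∑ a ∈ range M, ∑ b ∈ range M, (K ^ 2) ^ (N + 1) *
          ‖∫ p, h (z (a : ℝ) p) * (starRingEnd ℂ) (h (z (b : ℝ) p)) ∂μ‖ :=
          sum_le_sum fun a _ => sum_le_sum fun b _ => hterm a b
      _ = (K ^ 2) ^ (N + 1) * ∑ a ∈ range M, ∑ b ∈ range M,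
          ‖∫ p, h (z (a : ℝ) p) * (starRingEnd ℂ) (h (z (b : ℝ) p)) ∂μ‖ := by
          rw [mul_sum]; refine sum_congr rfl fun a _ => ?_; rw [mul_sum]
      _ ≤ _ := mul_le_mul_of_nonneg_left hη (by positivity)
  have hM2 : (0 : ℝ) < (M : ℝ) ^ 2 := by positivity
  refine le_of_mul_le_mul_left ?_ hM2
  refine h5.trans (le_of_eq ?_)
  ring

end Pool.Agent.W42.RN
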