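import Mathlib
import Pool.Agent.W42.RN.Up

set_option autoImplicit false
set_option linter.unusedSectionVars false
set_option linter.unusedVariables false

/-!
Eigenfunctions, invariant functions, and the induction on the multiplicity.
-/

namespace Pool.Agent.W42.RN

open MeasureTheory Filter Topology Finset

variable {X : Type} [MeasurableSpace X]

/-- bounded invariant functions of the flow -/
def InvF (μ : Measure X) (z : ℝ → X → X) : Set (X → ℂ) :=
  {f | Bd f ∧ ∀ u, (fun p => f (z u p)) =ᵐ[μ] f}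

/-- bounded eigenfunctions of the flow -/
def EigF (μ : Measure X) (z : ℝ → X → X) : Set (X → ℂ) :=
  {f | Bd f ∧ ∃ χ : ℝ → ℂ, (∀ u, ‖χ u‖ = 1) ∧ ∀ u, (fun p => f (z u p)) =ᵐ[μ] fun p => χ u * f p}

variable {μ : Measure X} [IsProbabilityMeasure μ] {P : ℤ → X → X}

theorem stepE (hP : Act μ P) {z : ℝ → X → X} (hz : Flow μ z)
    (hcomm : ∀ l u, Same μ (P l ∘ z u) (z u ∘ P l)) {N : ℕ} {U : Ultrafilter (Fin N → ℤ)}
    (hinv : ∀ g : Fin N → X → ℂ, (∀ i, g i ∈ InvF μ z) → L μ P U g = ∏ i, ∫ p, g i p ∂μ)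
    (h2 : MixAll μ P 2) {f : Fin N → X → ℂ} (hf : ∀ i, f i ∈ EigF μ z) (j : Fin N)
    (hj : ∫ p, f j p ∂μ = 0) : L μ P U f = 0 := by
  have hfB : ∀ i, Bd (f i) := fun i => (hf i).1
  obtain ⟨K, hK1, hK⟩ := Bd.common hfB
  have hle : ∀ ε : ℝ, 0 < ε → ‖L μ P U f‖ ^ 2 ≤ ε := by
    intro ε hε
    set δ : ℝ := ε / (2 * (K ^ 2) ^ N) with hδ
    have hδ0 : 0 < δ := by positivity
    -- the gap
    have hB2 : ∀ i, Bd ((![f j, fun p => (starRingEnd ℂ) (f j p)] : Fin 2 → X → ℂ) i) := by
      intro i
      fin_cases i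
      · exact hfB j
      · exact (hfB j).conj
    have h3 := h2 ![f j, fun p => (starRingEnd ℂ) (f j p)] hB2
    rw [Fin.prod_univ_two] at h3
    simp only [Matrix.cons_val_zero, Matrix.cons_val_one, hj, zero_mul] at h3
    have h4 := (Metric.tendsto_nhds.1 h3) δ hδ0
    obtain ⟨R, hR⟩ := mem_spread.1 h4
    obtain ⟨M, hM⟩ := exists_nat_gt (2 * (K ^ 2) ^ N * K ^ 2 / ε)
    have hM0 : (0 : ℝ) < M := lt_of_le_of_lt (by positivity) hM
    set t : ℕ → ℤ := fun a => (a : ℤ) * (R : ℤ) with ht
    have hoff : ∀ a b : ℕ, a ≠ b → ‖∫ p, f j (P (t a) p) * (starRingEnd ℂ) (f j (P (t b) p)) ∂μ‖ ≤ δ := by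
      intro a b hab
      have h5 := hR ![t a, t b] (by
        intro i i' hii
        have h6 : (R : ℤ) ≤ |t a - t b| := by
          have h7 : t a - t b = ((a : ℤ) - b) * R := by simp only [ht]; ring
          have h8 : (1 : ℤ) ≤ |(a : ℤ) - b| := Int.one_le_abs (by
            intro h; apply hab; exact_mod_cast sub_eq_zero.1 h)
          rw [h7, abs_mul, abs_of_nonneg (by positivity : (0 : ℤ) ≤ R)]
          nlinarith
        fin_cases i <;> fin_cases i'
        · exact absurd rfl hii
        · simpa using h6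
        · simp only [Fin.mk_one, Fin.isValue, Matrix.cons_val_one, Fin.zero_eta, Matrix.cons_val_zero]
          rw [abs_sub_comm]; exact h6
        · exact absurd rfl hii)
      have h5' : dist (C μ P ![t a, t b] ![f j, fun p => (starRingEnd ℂ) (f j p)]) 0 < δ := h5
      rw [dist_zero_right] at h5'
      have e : C μ P ![t a, t b] ![f j, fun p => (starRingEnd ℂ) (f j p)] =
          ∫ p, f j (P (t a) p) * (starRingEnd ℂ) (f j (P (t b) p)) ∂μ := by
        unfold C
        simp only [Fin.prod_univ_two, Matrix.cons_val_zero, Matrix.cons_val_one]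
      rw [← e]
      exact h5'.le
    set F : ℕ → Fin N → X → ℂ := fun a i p => f i (P (t a) p) with hF
    have hFB : ∀ a i, Bd (F a i) := fun a i => (hfB i).comp (hP.mp _).measurable
    have h6 : ∀ a, L μ P U (F a) = L μ P U f := fun a => L_inv hP hfB (t a)
    have h7 := L_cs2 hP M F hFB (U := U)
    have h8 : ‖∑ a ∈ range M, L μ P U (F a)‖ ^ 2 = (M : ℝ) ^ 2 * ‖L μ P U f‖ ^ 2 := by
      simp_rw [h6]
      rw [sum_const, card_range, nsmul_eq_mul, norm_mul, Complex.norm_natCast]
      ring
    rw [h8] at h7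
    have hterm : ∀ a b : ℕ, ‖L μ P U (fun i p => F a i p * (starRingEnd ℂ) (F b i p))‖ ≤
        (K ^ 2) ^ N * ((if a = b then K ^ 2 else 0) + δ) := by
      intro a b
      rw [hinv _ fun i => ?_]
      · refine (norm_prod_le_factor _ j (K ^ 2) (one_le_pow₀ hK1) fun i _ => ?_).trans ?_
        · apply norm_int_le
          intro p
          rw [norm_mul, RCLike.norm_conj]
          calc _ ≤ K * K := mul_le_mul (hK _ _) (hK _ _) (norm_nonneg _) (by linarith)
            _ = K ^ 2 := by ring
        · apply mul_le_mul_of_nonneg_left _ (by positivity)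
          by_cases hab : a = b
          · rw [if_pos hab]
            have : ‖∫ p, F a j p * (starRingEnd ℂ) (F b j p) ∂μ‖ ≤ K ^ 2 := by
              apply norm_int_le
              intro p
              rw [norm_mul, RCLike.norm_conj]
              calc _ ≤ K * K := mul_le_mul (hK _ _) (hK _ _) (norm_nonneg _) (by linarith)
                _ = K ^ 2 := by ring
            linarith
          · rw [if_neg hab, zero_add]
            exact hoff a b hab
      · obtain ⟨hfi, χ, hχ, hev⟩ := hf i
        refine ⟨(hFB a i).mul (hFB b i).conj, fun u => ?_⟩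
        have g : ∀ l, (fun p => f i (P l (z u p))) =ᵐ[μ] fun p => χ u * f i (P l p) := by
          intro l
          have := (hP.mp l).quasiMeasurePreserving.ae_eq_comp (hev u)
          exact ((hcomm l u).fn hfi.meas).trans this
        filter_upwards [g (t a), g (t b)] with p g1 g2
        simp only [hF]
        rw [g1, g2, map_mul]
        have g3 : χ u * (starRingEnd ℂ) (χ u) = 1 := by
          rw [Complex.mul_conj', hχ u]; simp
        calc _ = (χ u * (starRingEnd ℂ) (χ u)) * (f i (P (t a) p) * (starRingEnd ℂ) (f i (P (t b) p))) := by ring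
          _ = _ := by rw [g3, one_mul]
    have h9 : (M : ℝ) ^ 2 * ‖L μ P U f‖ ^ 2 ≤ (K ^ 2) ^ N * (M * K ^ 2 + (M : ℝ) ^ 2 * δ) := by
      refine h7.trans ?_
      calc _ ≤ ∑ a ∈ range M, ∑ b ∈ range M, (K ^ 2) ^ N * ((if a = b then K ^ 2 else 0) + δ) :=
            sum_le_sum fun a _ => sum_le_sum fun b _ => hterm a b
        _ = (K ^ 2) ^ N * ∑ a ∈ range M, ∑ b ∈ range M, ((if a = b then K ^ 2 else 0) + δ) := by
            rw [mul_sum]; refine sum_congr rfl fun a _ => ?_; rw [mul_sum]
        _ = (K ^ 2) ^ N * (M * K ^ 2 + (M : ℝ) ^ 2 * δ) := by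
            congr 1
            have : ∀ a ∈ range M, ∑ b ∈ range M, ((if a = b then K ^ 2 else 0) + δ) = K ^ 2 + M * δ := by
              intro a ha
              rw [sum_add_distrib, sum_ite_eq, if_pos ha, sum_const, card_range, nsmul_eq_mul]
            rw [sum_congr rfl this, sum_const, card_range, nsmul_eq_mul]
            ring
    have hM2 : (0 : ℝ) < (M : ℝ) ^ 2 := by positivity
    refine le_of_mul_le_mul_left (h9.trans ?_) hM2
    have g1 : (K ^ 2) ^ N * ((M : ℝ) ^ 2 * δ) = (M : ℝ) ^ 2 * (ε / 2) := by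
      rw [hδ]; field_simp
    have g2 : (K ^ 2) ^ N * (M * K ^ 2) ≤ (M : ℝ) ^ 2 * (ε / 2) := by
      rw [div_lt_iff₀ hε] at hM
      nlinarith
    nlinarith
  have h1 : ‖L μ P U f‖ ^ 2 ≤ 0 := le_of_forall_pos_le_add fun ε hε => by simpa using hle ε hε
  have h3 : ‖L μ P U f‖ = 0 := by
    have := norm_nonneg (L μ P U f)
    nlinarith
  exact norm_eq_zero.1 h3

theorem int_zero {z : ℝ → X → X} (hz : Flow μ z) {f : X → ℂ} (hf : Bd f) {c : ℂ} {u : ℝ}
    (h : (fun p => f (z u p)) =ᵐ[μ] fun p => c * f p) (hc : c ≠ 1) : ∫ p, f p ∂μ = 0 := by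
  have h1 : ∫ p, f p ∂μ = c * ∫ p, f p ∂μ := by
    calc ∫ p, f p ∂μ = ∫ p, f (z u p) ∂μ := (comp_int (hz.mp u) hf.meas).symm
      _ = ∫ p, c * f p ∂μ := integral_congr_ae h
      _ = _ := integral_const_mul _ _
  have h2 : (1 - c) * ∫ p, f p ∂μ = 0 := by linear_combination h1
  rcases mul_eq_zero.1 h2 with h3 | h3
  · exact absurd (sub_eq_zero.1 h3).symm hc
  · exact h3

/-- two functions: an eigenfunction with a non-trivial eigenvalue -/
theorem stepE2 (hP : Act μ P) {x z : ℝ → X → X} {r : ℤ → ℝ} (hr : Rate r)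
    (hx : ∀ ε, MeasurePreserving (x ε) μ μ) (hz : Flow μ z) (hs : Shears μ P x z r)
    {U : Ultrafilter (Fin 2 → ℤ)} (hU : (U : Filter (Fin 2 → ℤ)) ≤ spread 2) {f : Fin 2 → X → ℂ}
    (hf : ∀ i, Bd (f i)) (j : Fin 2) {χ : ℝ → ℂ}
    (hev : ∀ u, (fun p => f j (z u p)) =ᵐ[μ] fun p => χ u * f j p) {u₀ : ℝ} (hu₀ : χ u₀ ≠ 1) :
    L μ P U f = 0 := by
  obtain ⟨c, hcj, ρ, hρc, hρj, hsh⟩ := shear hP hr hx hz hs hU j (by
    fin_cases j
    · exact ⟨1, by simp⟩
    · exact ⟨0, by simp⟩)
  have hall : ∀ i, i = j ∨ i = c := by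
    intro i
    have h1 := hcj
    revert h1
    fin_cases i <;> fin_cases j <;> fin_cases c <;> simp
  have hupd : ∀ w : ℂ, L μ P U (Function.update f j (w • f j)) = w * L μ P U f := by
    intro w
    rw [L_smul hf j (hf j) w, Function.update_eq_self]
  -- positive multiples of `ρ j`
  have h1 : ∀ u : ℝ, 0 < u → L μ P U f = χ (u * ρ j) * L μ P U f := by
    intro u hu
    rw [← hupd, ← hsh u hu f hf]
    apply L_congr_ae hP (fun i => (hf i).comp (hz.mp _).measurable) (Bd.update hf j ((hf j).smul _))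
    intro i
    rcases hall i with h | h
    · subst h
      rw [Function.update_self]
      exact hev _
    · subst h
      rw [Function.update_of_ne hcj, hρc, mul_zero]
      exact hz.zero.fn (hf i).meas
  have h2 : ∀ w : ℝ, L μ P U f = χ w * L μ P U f := by
    intro w
    have hpos : 0 < w * ρ j → L μ P U f = χ w * L μ P U f := by
      intro hw
      have := h1 (w * ρ j) hw
      have e : w * ρ j * ρ j = w := by
        rcases hρj with h | h <;> rw [h] <;> ring
      rwa [e] at this
    rcases lt_trichotomy (w * ρ j) 0 with hw | hw | hw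
    · have h3 := h1 (-(w * ρ j)) (by linarith)
      have e : -(w * ρ j) * ρ j = -w := by
        rcases hρj with h | h <;> rw [h] <;> ring
      rw [e] at h3
      have h4 : f j =ᵐ[μ] (χ w * χ (-w)) • f j := by
        have g1 := (hz.mp (-w)).quasiMeasurePreserving.ae_eq_comp (hev w)
        have g3 := (hz.add w (-w)).fn (hf j).meas
        rw [add_neg_cancel] at g3
        filter_upwards [g1, hev (-w), g3, hz.zero.fn (hf j).meas] with p g1 g2 g3 g4
        simp only [Function.comp_apply] at g1 g3
        simp only [id] at g4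
        rw [Pi.smul_apply, smul_eq_mul, mul_assoc, ← g2, ← g1, ← g3, g4]
      have h5 : L μ P U f = L μ P U (Function.update f j ((χ w * χ (-w)) • f j)) := by
        apply L_congr_ae hP hf (Bd.update hf j ((hf j).smul _))
        intro i
        by_cases h : i = j
        · subst h; rw [Function.update_self]; exact h4
        · rw [Function.update_of_ne h]
      rw [hupd, mul_assoc, ← h3] at h5
      exact h5
    · have hw0 : w = 0 := by
        rcases mul_eq_zero.1 hw with h | h
        · exact h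
        · rcases hρj with h' | h' <;> rw [h'] at h <;> norm_num at h
      subst hw0
      have h5 : L μ P U f = L μ P U (Function.update f j (χ 0 • f j)) := by
        apply L_congr_ae hP hf (Bd.update hf j ((hf j).smul _))
        intro i
        by_cases h : i = j
        · subst h
          rw [Function.update_self]
          exact (hz.zero.fn (hf i).meas).symm.trans (hev 0)
        · rw [Function.update_of_ne h]
      rw [hupd] at h5
      exact h5
    · exact hpos hw
  have h3 : (1 - χ u₀) * L μ P U f = 0 := by linear_combination h2 u₀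
  rcases mul_eq_zero.1 h3 with h | h
  · exact absurd (sub_eq_zero.1 h).symm hu₀
  · exact h

end Pool.Agent.W42.RN
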