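import Mathlib
import Pool.Agent.W42.RN.Steps
import Pool.Agent.W42.RN.Fou
import Pool.Agent.W880.BQ.WM

set_option autoImplicit false
set_option linter.unusedSectionVars false
set_option linter.unusedVariables false

/-!
Every bounded function is, up to a small error, the sum of a combination of bounded eigenfunctions of
the flow and of a function with small correlations.
-/

namespace Pool.Agent.W42.RN

open MeasureTheory Filter Topology Finset

variable {X : Type} [MeasurableSpace X] {μ : Measure X} [IsProbabilityMeasure μ] {z : ℝ → X → X}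

/-- Koopman operators -/
noncomputable def KO (hz : Flow μ z) (u : ℝ) : Lp ℂ 2 μ →ₗᵢ[ℂ] Lp ℂ 2 μ :=
  Lp.compMeasurePreservingₗᵢ ℂ (z u) (hz.mp u)

theorem KO_coe (hz : Flow μ z) (u : ℝ) (g : Lp ℂ 2 μ) : KO hz u g =ᵐ[μ] fun p => g (z u p) :=
  Lp.coeFn_compMeasurePreserving g (hz.mp u)

theorem KO_add (hz : Flow μ z) (s u : ℝ) (g : Lp ℂ 2 μ) : KO hz s (KO hz u g) = KO hz (s + u) g := by
  apply Lp.ext
  have h1 := KO_coe hz s (KO hz u g)
  have h2 := (hz.mp s).quasiMeasurePreserving.ae_eq_comp (KO_coe hz u g)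
  have h3 := KO_coe hz (s + u) g
  have hgm : Measurable (g : X → ℂ) := (Lp.stronglyMeasurable g).measurable
  have h4 := (hz.add u s).fn hgm
  filter_upwards [h1, h2, h3, h4] with p g1 g2 g3 g4
  rw [g1, g3]
  simp only [Function.comp_apply] at g2 g4
  rw [g2, add_comm s u, g4]

theorem KO_zero (hz : Flow μ z) (g : Lp ℂ 2 μ) : KO hz 0 g = g := by
  apply Lp.ext
  have hgm : Measurable (g : X → ℂ) := (Lp.stronglyMeasurable g).measurable
  filter_upwards [KO_coe hz 0 g, hz.zero.fn hgm] with p g1 g2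
  rw [g1, g2]
  rfl

theorem Bd.memLp {f : X → ℂ} (hf : Bd f) : MemLp f 2 μ := by
  obtain ⟨C, hC⟩ := hf.bdd
  exact MemLp.of_bound hf.meas.aestronglyMeasurable C (Eventually.of_forall hC)

/-- the class of a bounded function -/
noncomputable def toL {f : X → ℂ} (hf : Bd f) : Lp ℂ 2 μ := (hf.memLp (μ := μ)).toLp f

theorem toL_coe {f : X → ℂ} (hf : Bd f) : (toL hf : Lp ℂ 2 μ) =ᵐ[μ] f := MemLp.coeFn_toLp _

theorem inner_int (f g : Lp ℂ 2 μ) : inner ℂ f g = ∫ p, g p * (starRingEnd ℂ) (f p) ∂μ := by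
  rw [L2.inner_def]
  congr 1

theorem norm_sq_int (g : Lp ℂ 2 μ) : ‖g‖ ^ 2 = ∫ p, ‖g p‖ ^ 2 ∂μ := by
  have h1 := inner_self_eq_norm_sq_to_K (𝕜 := ℂ) g
  rw [inner_int] at h1
  have e : ∀ p, g p * (starRingEnd ℂ) (g p) = ((‖g p‖ ^ 2 : ℝ) : ℂ) := by
    intro p
    rw [Complex.mul_conj']
    push_cast; rfl
  simp_rw [e] at h1
  rw [integral_complex_ofReal] at h1
  have h2 : ((∫ p, ‖g p‖ ^ 2 ∂μ : ℝ) : ℂ) = ((‖g‖ ^ 2 : ℝ) : ℂ) := by
    rw [h1]; push_cast; rfl
  exact (Complex.ofReal_injective h2).symm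

theorem KO_cont (hz : Flow μ z) {f : X → ℂ} (hf : Bd f) : Continuous fun u => KO hz u (toL hf) := by
  rw [continuous_iff_continuousAt]
  intro u
  rw [ContinuousAt, tendsto_iff_norm_sub_tendsto_zero]
  obtain ⟨C, hC⟩ := hf.bdd
  have h1 := (hz.cont f hf u).const_mul (2 * |C|)
  rw [mul_zero] at h1
  have h2 : Tendsto (fun v => ‖KO hz v (toL hf) - KO hz u (toL hf)‖ ^ 2) (𝓝 u) (𝓝 0) := by
    refine squeeze_zero (fun v => by positivity) (fun v => ?_) h1
    rw [norm_sq_int, ← integral_const_mul]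
    have e : ∀ v : ℝ, KO hz v (toL hf) =ᵐ[μ] fun p => f (z v p) := by
      intro v
      have g1 := (hz.mp v).quasiMeasurePreserving.ae_eq_comp (toL_coe (μ := μ) hf)
      filter_upwards [KO_coe hz v (toL hf), g1] with p g2 g3
      rw [g2]; exact g3
    have e2 : (fun p => ‖(KO hz v (toL hf) - KO hz u (toL hf)) p‖ ^ 2) =ᵐ[μ]
        fun p => ‖f (z v p) - f (z u p)‖ ^ 2 := by
      filter_upwards [Lp.coeFn_sub (KO hz v (toL hf)) (KO hz u (toL hf)), e v, e u] with p g1 g2 g3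
      rw [g1, Pi.sub_apply, g2, g3]
    rw [integral_congr_ae e2]
    have hd : Bd fun p => f (z v p) - f (z u p) := (hf.comp (hz.mp v).measurable).sub (hf.comp (hz.mp u).measurable)
    apply integral_mono
    · have := (hd.mul hd).int (μ := μ)
      refine this.norm.congr (Eventually.of_forall fun p => ?_)
      simp only [norm_mul]; ring
    · exact hd.int.norm.const_mul _
    · intro p
      have g1 : ‖f (z v p) - f (z u p)‖ ≤ 2 * |C| := by
        refine (norm_sub_le _ _).trans ?_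
        have g2 := hC (z v p)
        have g3 := hC (z u p)
        have g4 := le_abs_self C
        linarith
      show ‖f (z v p) - f (z u p)‖ ^ 2 ≤ 2 * |C| * ‖f (z v p) - f (z u p)‖
      rw [pow_two]
      exact mul_le_mul_of_nonneg_right g1 (norm_nonneg _)
  have h3 : Tendsto (fun v => Real.sqrt (‖KO hz v (toL hf) - KO hz u (toL hf)‖ ^ 2)) (𝓝 u) (𝓝 (Real.sqrt 0)) :=
    (Real.continuous_sqrt.tendsto 0).comp h2
  rw [Real.sqrt_zero] at h3
  refine h3.congr fun v => ?_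
  exact Real.sqrt_sq (norm_nonneg _)

/-- truncation of eigenvectors -/
theorem trunc (hz : Flow μ z) (v : Lp ℂ 2 μ) (S : Set ℝ) (χ : ℝ → ℂ) (hχ : ∀ u ∈ S, ‖χ u‖ = 1)
    (h : ∀ f : X → ℂ, ∀ hf : Bd f, (∀ u ∈ S, (fun p => f (z u p)) =ᵐ[μ] fun p => χ u * f p) →
      inner ℂ v (toL hf) = 0)
    (g : Lp ℂ 2 μ) (hg : ∀ u ∈ S, KO hz u g = χ u • g) : inner ℂ v g = 0 := by
  classical
  have hgm : Measurable (g : X → ℂ) := (Lp.stronglyMeasurable g).measurable
  set f : ℕ → X → ℂ := fun M p => if ‖g p‖ ≤ M then g p else 0 with hf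
  have hfB : ∀ M, Bd (f M) := by
    intro M
    refine ⟨Measurable.ite (measurableSet_le hgm.norm measurable_const) hgm measurable_const, M, fun p => ?_⟩
    simp only [hf]
    split_ifs with h1
    · exact h1
    · simp
  have hz0 : ∀ M : ℕ, ∫ p, f M p * (starRingEnd ℂ) (v p) ∂μ = 0 := by
    intro M
    have h1 := h (f M) (hfB M) (by
      intro u hu
      have h2 : (fun p => g (z u p)) =ᵐ[μ] fun p => χ u * g p := by
        have h3 := KO_coe hz u g
        rw [hg u hu] at h3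
        filter_upwards [h3, Lp.coeFn_smul (χ u) g] with p g1 g2
        rw [← g1, g2]; rfl
      filter_upwards [h2] with p g1
      simp only [hf]
      rw [g1, norm_mul, hχ u hu, one_mul]
      split_ifs <;> simp)
    rw [inner_int] at h1
    rw [← h1]
    apply integral_congr_ae
    filter_upwards [toL_coe (μ := μ) (hfB M)] with p g1
    rw [g1]
  have hlim : Tendsto (fun M : ℕ => ∫ p, f M p * (starRingEnd ℂ) (v p) ∂μ) atTop
      (𝓝 (∫ p, g p * (starRingEnd ℂ) (v p) ∂μ)) := by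
    have hint : Integrable (fun p => g p * (starRingEnd ℂ) (v p)) μ := by
      have := L2.integrable_inner (𝕜 := ℂ) v g
      refine this.congr (Eventually.of_forall fun p => ?_)
      rfl
    apply tendsto_integral_of_dominated_convergence (fun p => ‖g p * (starRingEnd ℂ) (v p)‖)
    · intro M
      exact ((hfB M).meas.mul (Complex.continuous_conj.measurable.comp
        (Lp.stronglyMeasurable v).measurable)).aestronglyMeasurable
    · exact hint.norm
    · intro M
      refine Eventually.of_forall fun p => ?_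
      simp only [hf]
      split_ifs
      · exact le_rfl
      · simp only [zero_mul, norm_zero]; exact norm_nonneg _
    · refine Eventually.of_forall fun p => ?_
      obtain ⟨M0, hM0⟩ := exists_nat_ge ‖g p‖
      refine tendsto_const_nhds.congr' ?_
      filter_upwards [eventually_ge_atTop M0] with M hM
      simp only [hf]
      rw [if_pos (hM0.trans (by exact_mod_cast hM))]
  simp_rw [hz0] at hlim
  rw [inner_int]
  exact (tendsto_nhds_unique hlim tendsto_const_nhds)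

theorem orth (hz : Flow μ z) (v : Lp ℂ 2 μ)
    (h : ∀ f : X → ℂ, ∀ hf : f ∈ EigF μ z, inner ℂ v (toL hf.1) = 0) (θ : Circle) (w : Lp ℂ 2 μ)
    (hw : KO hz 1 w = (θ : ℂ) • w) : inner ℂ v w = 0 := by
  apply trunc hz v {1} (fun _ => (θ : ℂ)) (fun u _ => Circle.norm_coe θ) _ w (by
    intro u hu
    rw [Set.mem_singleton_iff] at hu
    rw [hu]; exact hw)
  intro f hf hev
  refine fourier_lemma (fun u => (KO hz u).toContinuousLinearMap) (fun s u w => KO_add hz s u w)
    (fun w => KO_zero hz w) (toL hf) (KO_cont hz hf) θ ?_ v ?_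
  · apply Lp.ext
    have h1 := hev 1 rfl
    have h2 := (hz.mp 1).quasiMeasurePreserving.ae_eq_comp (toL_coe (μ := μ) hf)
    filter_upwards [KO_coe hz 1 (toL hf), h1, h2, Lp.coeFn_smul (θ : ℂ) (toL hf : Lp ℂ 2 μ), toL_coe (μ := μ) hf]
      with p g1 g2 g3 g4 g5
    show KO hz 1 (toL hf) p = _
    rw [g1, g4, Pi.smul_apply, g5, smul_eq_mul]
    simp only [Function.comp_apply] at g3
    rw [g3]; exact g2
  · intro α g hg
    refine trunc hz v Set.univ (fun u => ee α u) (fun u _ => norm_ee α u) (fun f hf hev => ?_) g (fun u _ => hg u)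
    exact h f ⟨hf, fun u => ee α u, fun u => norm_ee α u, fun u => hev u trivial⟩

theorem KO_unitary (hz : Flow μ z) : ∃ V : Lp ℂ 2 μ ≃ₗᵢ[ℂ] Lp ℂ 2 μ, (∀ w, V w = KO hz 1 w) ∧
    ∀ (n : ℕ) w, (V ^ (n : ℤ)) w = KO hz (n : ℝ) w := by
  have hsurj : Function.Surjective (KO hz 1) := by
    intro w
    refine ⟨KO hz (-1) w, ?_⟩
    rw [KO_add, add_neg_cancel, KO_zero]
  refine ⟨LinearIsometryEquiv.ofSurjective (KO hz 1) hsurj, fun w => rfl, fun n => ?_⟩
  induction n with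
  | zero => intro w; simp [KO_zero]
  | succ n ih =>
    intro w
    rw [Nat.cast_succ, zpow_add_one]
    have e : ∀ (A B : Lp ℂ 2 μ ≃ₗᵢ[ℂ] Lp ℂ 2 μ) w, (A * B) w = A (B w) := fun _ _ _ => rfl
    rw [e, ih, LinearIsometryEquiv.coe_ofSurjective, KO_add]
    push_cast
    rfl

theorem int_inner (hz : Flow μ z) {h : X → ℂ} (hh : Bd h) (a b : ℝ) :
    ∫ p, h (z a p) * (starRingEnd ℂ) (h (z b p)) ∂μ = inner ℂ (KO hz b (toL hh)) (KO hz a (toL hh)) := by
  rw [inner_int]
  apply integral_congr_ae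
  have e : ∀ v : ℝ, KO hz v (toL hh) =ᵐ[μ] fun p => h (z v p) := by
    intro v
    have g1 := (hz.mp v).quasiMeasurePreserving.ae_eq_comp (toL_coe (μ := μ) hh)
    filter_upwards [KO_coe hz v (toL hh), g1] with p g2 g3
    rw [g2]; exact g3
  filter_upwards [e a, e b] with p g1 g2
  rw [g1, g2]

theorem one_mem_EigF : (fun _ => 1 : X → ℂ) ∈ EigF μ z :=
  ⟨Bd.const 1, fun _ => 1, fun _ => by simp, fun u => Eventually.of_forall fun p => by simp⟩

theorem kron (hz : Flow μ z) {f : X → ℂ} (hf : Bd f) (η : ℝ) (hη : 0 < η) :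
    ∃ g ∈ Submodule.span ℂ (EigF μ z), Bd g ∧ ∃ M : ℕ, 0 < M ∧
      (∑ a ∈ range M, ∑ b ∈ range M,
        ‖∫ p, (f - g) (z (a : ℝ) p) * (starRingEnd ℂ) ((f - g) (z (b : ℝ) p)) ∂μ‖ ≤ η * (M : ℝ) ^ 2) ∧
      ‖∫ p, (f - g) p ∂μ‖ ≤ η := by
  set E2 : Set (Lp ℂ 2 μ) := {w | ∃ f ∈ EigF μ z, w =ᵐ[μ] f} with hE2
  set W : Submodule ℂ (Lp ℂ 2 μ) := (Submodule.span ℂ E2).topologicalClosure with hW
  have : CompleteSpace W := (Submodule.isClosed_topologicalClosure _).completeSpace_coe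
  obtain ⟨y, hy, v, hv, hyv⟩ := W.exists_add_mem_mem_orthogonal (toL hf)
  have hvE : ∀ f : X → ℂ, ∀ hf : f ∈ EigF μ z, inner ℂ v (toL hf.1) = 0 := by
    intro f hf
    have h1 : (toL hf.1 : Lp ℂ 2 μ) ∈ W :=
      Submodule.le_topologicalClosure _ (Submodule.subset_span ⟨f, hf, toL_coe _⟩)
    have h2 := (Submodule.mem_orthogonal W v).1 hv _ h1
    rw [← inner_conj_symm, h2, map_zero]
  obtain ⟨V, hV1, hVn⟩ := KO_unitary hz
  have hwm := Pool.Agent.W880.BQ.wm (Lp ℂ 2 μ) V v (by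
    intro θ w hw
    rw [hV1] at hw
    have h1 := orth hz v hvE θ w hw
    rw [← inner_conj_symm, h1, map_zero])
  -- the constants
  set R : ℝ := ‖v‖ with hR
  have hR0 : 0 ≤ R := norm_nonneg _
  set κ : ℝ := min 1 (η / (2 * (2 * R + 1))) with hκ
  have hκ0 : 0 < κ := by positivity
  have hκ1 : κ ≤ 1 := min_le_left _ _
  have hκ2 : κ * (2 * R + 1) ≤ η / 2 := by
    have h1 : κ ≤ η / (2 * (2 * R + 1)) := min_le_right _ _
    have h2 : 0 < 2 * R + 1 := by linarith
    calc κ * (2 * R + 1) ≤ η / (2 * (2 * R + 1)) * (2 * R + 1) := mul_le_mul_of_nonneg_right h1 h2.le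
      _ = η / 2 := by field_simp
  obtain ⟨g', hg', hgd⟩ : ∃ g' ∈ Submodule.span ℂ E2, ‖y - g'‖ < κ := by
    have h1 : y ∈ closure ((Submodule.span ℂ E2 : Submodule ℂ (Lp ℂ 2 μ)) : Set (Lp ℂ 2 μ)) := hy
    obtain ⟨g', h2, h3⟩ := Metric.mem_closure_iff.1 h1 κ hκ0
    exact ⟨g', h2, by rwa [dist_eq_norm] at h3⟩
  obtain ⟨g, hg, hgB, hgg⟩ : ∃ g ∈ Submodule.span ℂ (EigF μ z), Bd g ∧ g' =ᵐ[μ] g := by
    clear hgd
    induction hg' using Submodule.span_induction with
    | mem w hw =>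
      obtain ⟨f, hf, h1⟩ := hw
      exact ⟨f, Submodule.subset_span hf, hf.1, h1⟩
    | zero => exact ⟨0, Submodule.zero_mem _, Bd.const 0, Lp.coeFn_zero _ _ _⟩
    | add a b _ _ ha hb =>
      obtain ⟨a', h1, h2, h3⟩ := ha
      obtain ⟨b', g1, g2, g3⟩ := hb
      exact ⟨a' + b', Submodule.add_mem _ h1 g1, h2.add g2, (Lp.coeFn_add a b).trans (h3.add g3)⟩
    | smul c a _ ha =>
      obtain ⟨a', h1, h2, h3⟩ := ha
      exact ⟨c • a', Submodule.smul_mem _ c h1, h2.smul c, (Lp.coeFn_smul c a).trans (h3.const_smul c)⟩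
  have hfg : Bd (f - g) := hf.sub hgB
  set k : Lp ℂ 2 μ := y - g' with hk
  have hkn : ‖k‖ ≤ κ := hgd.le
  have hdec : (toL hfg : Lp ℂ 2 μ) = v + k := by
    have h1 : (toL hfg : Lp ℂ 2 μ) = toL hf - g' := by
      apply Lp.ext
      filter_upwards [toL_coe (μ := μ) hfg, Lp.coeFn_sub (toL hf : Lp ℂ 2 μ) g', toL_coe (μ := μ) hf, hgg]
        with p g1 g2 g3 g4
      rw [g1, g2, Pi.sub_apply, Pi.sub_apply, g3, g4]
    rw [h1, hyv, hk]
    abel
  obtain ⟨L0, hL0⟩ := hwm (η / 2) (by positivity)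
  set M := max L0 1 with hM
  have hM1 : 1 ≤ M := le_max_right _ _
  have hM0 : (0 : ℝ) < M := by exact_mod_cast hM1
  refine ⟨g, hg, hgB, M, hM1, ?_, ?_⟩
  · have hterm : ∀ a b : ℕ, ‖∫ p, (f - g) (z (a : ℝ) p) * (starRingEnd ℂ) ((f - g) (z (b : ℝ) p)) ∂μ‖ ≤
        ‖inner ℂ ((V ^ (-(b : ℤ) + (a : ℤ))) v) v‖ + η / 2 := by
      intro a b
      rw [int_inner hz hfg, hdec, map_add, map_add, inner_add_left, inner_add_right, inner_add_right]
      have n1 : ‖inner ℂ (KO hz b v) (KO hz a v)‖ = ‖inner ℂ ((V ^ (-(b : ℤ) + (a : ℤ))) v) v‖ := by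
        rw [← hVn, ← hVn, Pool.Agent.W880.BQ.inner_zpow]
        unfold Pool.Agent.W880.BQ.cc
        rw [norm_inner_symm]
        congr 3
        ring_nf
      have n2 : ‖inner ℂ (KO hz b v) (KO hz a k)‖ ≤ R * κ := by
        refine (norm_inner_le_norm _ _).trans ?_
        rw [LinearIsometry.norm_map, LinearIsometry.norm_map]
        exact mul_le_mul_of_nonneg_left hkn hR0
      have n3 : ‖inner ℂ (KO hz b k) (KO hz a v)‖ ≤ κ * R := by
        refine (norm_inner_le_norm _ _).trans ?_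
        rw [LinearIsometry.norm_map, LinearIsometry.norm_map]
        exact mul_le_mul_of_nonneg_right hkn hR0
      have n4 : ‖inner ℂ (KO hz b k) (KO hz a k)‖ ≤ κ * κ := by
        refine (norm_inner_le_norm _ _).trans ?_
        rw [LinearIsometry.norm_map, LinearIsometry.norm_map]
        exact mul_le_mul hkn hkn (norm_nonneg _) hκ0.le
      have n5 : κ * κ ≤ κ * 1 := mul_le_mul_of_nonneg_left hκ1 hκ0.le
      calc _ ≤ (‖inner ℂ (KO hz b v) (KO hz a v)‖ + ‖inner ℂ (KO hz b v) (KO hz a k)‖) +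
            (‖inner ℂ (KO hz b k) (KO hz a v)‖ + ‖inner ℂ (KO hz b k) (KO hz a k)‖) :=
            (norm_add_le _ _).trans (add_le_add (norm_add_le _ _) (norm_add_le _ _))
        _ ≤ _ := by rw [n1]; nlinarith
    rw [sum_comm]
    have hrow : ∀ b ∈ range M, ∑ a ∈ range M, ‖∫ p, (f - g) (z (a : ℝ) p) *
        (starRingEnd ℂ) ((f - g) (z (b : ℝ) p)) ∂μ‖ ≤ η * M := by
      intro b _
      calc _ ≤ ∑ a ∈ range M, (‖inner ℂ ((V ^ (-(b : ℤ) + (a : ℤ))) v) v‖ + η / 2) :=
            sum_le_sum fun a _ => hterm a b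
        _ = ∑ a ∈ range M, ‖inner ℂ ((V ^ (-(b : ℤ) + (a : ℤ))) v) v‖ + M * (η / 2) := by
            rw [sum_add_distrib, sum_const, card_range, nsmul_eq_mul]
        _ ≤ η / 2 * M + M * (η / 2) := by
            have := hL0 M (le_max_left _ _) (-(b : ℤ))
            linarith
        _ = _ := by ring
    calc _ ≤ ∑ _b ∈ range M, η * M := sum_le_sum hrow
      _ = η * (M : ℝ) ^ 2 := by rw [sum_const, card_range, nsmul_eq_mul]; ring
  · have h1 : ∫ p, (f - g) p ∂μ = inner ℂ (toL (Bd.const (X := X) 1)) (toL hfg : Lp ℂ 2 μ) := by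
      rw [inner_int]
      apply integral_congr_ae
      filter_upwards [toL_coe (μ := μ) hfg, toL_coe (μ := μ) (Bd.const (X := X) 1)] with p g1 g2
      rw [g1, g2]; simp
    have h2 : inner ℂ (toL (Bd.const (X := X) 1)) v = 0 := by
      have := hvE _ (one_mem_EigF (μ := μ) (z := z))
      rw [← inner_conj_symm]
      have e : inner ℂ v (toL (Bd.const (X := X) 1)) = 0 := this
      rw [e, map_zero]
    have h3 : ‖(toL (Bd.const (X := X) 1) : Lp ℂ 2 μ)‖ ≤ 1 := by
      have h4 := norm_sq_int (toL (Bd.const (X := X) 1) : Lp ℂ 2 μ)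
      have h5 : ∫ p, ‖(toL (Bd.const (X := X) 1) : Lp ℂ 2 μ) p‖ ^ 2 ∂μ = 1 := by
        have : (fun p => ‖(toL (Bd.const (X := X) 1) : Lp ℂ 2 μ) p‖ ^ 2) =ᵐ[μ] fun _ => 1 := by
          filter_upwards [toL_coe (μ := μ) (Bd.const (X := X) 1)] with p g1
          rw [g1]; simp
        rw [integral_congr_ae this]; simp
      rw [h5] at h4
      nlinarith [norm_nonneg (toL (Bd.const (X := X) 1) : Lp ℂ 2 μ)]
    rw [h1, hdec, inner_add_right, h2, zero_add]
    refine (norm_inner_le_norm _ _).trans ?_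
    have h6 : κ ≤ η / 2 := by
      have : κ * 1 ≤ κ * (2 * R + 1) := mul_le_mul_of_nonneg_left (by linarith) hκ0.le
      linarith
    calc _ ≤ 1 * κ := mul_le_mul h3 hkn (norm_nonneg _) zero_le_one
      _ ≤ η := by linarith

end Pool.Agent.W42.RN
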