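import Mathlib
import Pool.Agent.W42.RN.Kron

set_option autoImplicit false
set_option linter.unusedSectionVars false
set_option linter.unusedVariables false

/-!
Multiple mixing on the invariant sets of the sheared flow implies multiple mixing.
-/

namespace Pool.Agent.W42.RN

open MeasureTheory Filter Topology Finset

variable {X : Type} [MeasurableSpace X]

/-- measurable sets which are almost everywhere invariant under the flow -/
def InvS (μ : Measure X) (z : ℝ → X → X) (A : Set X) : Prop :=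
  MeasurableSet A ∧ ∀ u, z u ⁻¹' A =ᵐ[μ] A

/-- mixing for tuples of `N` invariant sets -/
def MixInvS (μ : Measure X) (P : ℤ → X → X) (z : ℝ → X → X) (N : ℕ) : Prop :=
  ∀ A : Fin N → Set X, (∀ i, InvS μ z (A i)) →
    Tendsto (fun n : Fin N → ℤ => μ.real (⋂ i, P (n i) ⁻¹' A i)) (spread N) (𝓝 (∏ i, μ.real (A i)))

/-- indicator functions -/
noncomputable def ind (A : Set X) : X → ℂ := A.indicator fun _ => 1

theorem ind_bd {A : Set X} (hA : MeasurableSet A) : Bd (ind A) := by
  refine ⟨measurable_const.indicator hA, 1, fun p => ?_⟩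
  unfold ind
  by_cases h : p ∈ A
  · rw [Set.indicator_of_mem h]; simp
  · rw [Set.indicator_of_notMem h]; simp

variable {μ : Measure X} [IsProbabilityMeasure μ] {P : ℤ → X → X} {z : ℝ → X → X}

theorem int_ind {A : Set X} (hA : MeasurableSet A) : ∫ p, ind A p ∂μ = ((μ.real A : ℝ) : ℂ) := by
  unfold ind
  rw [integral_indicator_const _ hA]
  simp

theorem C_ind (hP : Act μ P) {N : ℕ} {A : Fin N → Set X} (hA : ∀ i, MeasurableSet (A i)) (n : Fin N → ℤ) :
    C μ P n (fun i => ind (A i)) = ((μ.real (⋂ i, P (n i) ⁻¹' A i) : ℝ) : ℂ) := by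
  rw [← int_ind (MeasurableSet.iInter fun i => (hP.mp (n i)).measurable (hA i))]
  unfold C
  congr 1; funext p
  unfold ind
  by_cases h : p ∈ ⋂ i, P (n i) ⁻¹' A i
  · rw [Set.indicator_of_mem h]
    rw [Set.mem_iInter] at h
    refine prod_eq_one fun i _ => ?_
    have h1 : P (n i) p ∈ A i := h i
    exact Set.indicator_of_mem h1 _
  · rw [Set.indicator_of_notMem h]
    rw [Set.mem_iInter] at h
    push Not at h
    obtain ⟨i, hi⟩ := h
    have h1 : P (n i) p ∉ A i := hi
    exact prod_eq_zero (mem_univ i) (Set.indicator_of_notMem h1 _)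

theorem L_update_le (hP : Act μ P) {N : ℕ} {U : Ultrafilter (Fin N → ℤ)} {f : Fin N → X → ℂ}
    (hf : ∀ i, Bd (f i)) (K : ℝ) (hK1 : 1 ≤ K) (hK : ∀ i p, ‖f i p‖ ≤ K) (j : Fin N) {h : X → ℂ}
    (hh : Bd h) (ε : ℝ) (hε : ∀ p, ‖h p‖ ≤ ε) : ‖L μ P U (Function.update f j h)‖ ≤ K ^ N * ε := by
  refine le_of_tendsto (tendsto_L (Bd.update hf j hh)).norm (Eventually.of_forall fun n => ?_)
  apply norm_int_le
  intro p
  refine (norm_prod_le_factor _ j K hK1 fun i hi => ?_).trans ?_
  · rw [Function.update_of_ne hi]; exact hK _ _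
  · rw [Function.update_self]
    exact mul_le_mul_of_nonneg_left (hε _) (by positivity)

theorem prod_update_le {N : ℕ} {f : Fin N → X → ℂ} (K : ℝ) (hK1 : 1 ≤ K) (hK : ∀ i p, ‖f i p‖ ≤ K)
    (j : Fin N) (h : X → ℂ) :
    ‖∏ i, ∫ p, Function.update f j h i p ∂μ‖ ≤ K ^ N * ‖∫ p, h p ∂μ‖ := by
  refine (norm_prod_le_factor _ j K hK1 fun i hi => ?_).trans ?_
  · rw [Function.update_of_ne hi]; exact norm_int_le K (hK i)
  · rw [Function.update_self]

theorem approx_inv {f : X → ℂ} (hf : f ∈ InvF μ z) (ε : ℝ) (hε : 0 < ε) :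
    ∃ g ∈ Submodule.span ℂ {g : X → ℂ | ∃ A, InvS μ z A ∧ g = ind A}, Bd g ∧ ∀ p, ‖(f - g) p‖ ≤ ε := by
  classical
  obtain ⟨hfB, hfi⟩ := hf
  obtain ⟨K, hK⟩ := hfB.bdd
  obtain ⟨n, hn⟩ := exists_nat_gt (2 / ε)
  have hn0 : (0 : ℝ) < n := lt_trans (by positivity) hn
  set B : ℤ := ⌈(n : ℝ) * |K|⌉ + 1 with hB
  set J : Finset (ℤ × ℤ) := Icc (-B) B ×ˢ Icc (-B) B with hJ
  set cell : ℤ × ℤ → Set X := fun c => {p | ⌊(n : ℝ) * (f p).re⌋ = c.1 ∧ ⌊(n : ℝ) * (f p).im⌋ = c.2} with hcell
  set val : ℤ × ℤ → ℂ := fun c => ((c.1 : ℝ) / n : ℝ) + ((c.2 : ℝ) / n : ℝ) * Complex.I with hval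
  have hre : Measurable fun p => (f p).re := Complex.measurable_re.comp hfB.meas
  have him : Measurable fun p => (f p).im := Complex.measurable_im.comp hfB.meas
  have hm : ∀ c, MeasurableSet (cell c) := by
    intro c
    have h1 : Measurable fun p => ⌊(n : ℝ) * (f p).re⌋ := (hre.const_mul _).floor
    have h2 : Measurable fun p => ⌊(n : ℝ) * (f p).im⌋ := (him.const_mul _).floor
    exact (h1 (measurableSet_singleton c.1)).inter (h2 (measurableSet_singleton c.2))
  have hinv : ∀ c, InvS μ z (cell c) := by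
    intro c
    refine ⟨hm c, fun u => ?_⟩
    rw [eventuallyEq_set]
    filter_upwards [hfi u] with p hp
    simp only [hcell, Set.mem_preimage, Set.mem_ofPred_eq]
    rw [hp]
  set g : X → ℂ := ∑ c ∈ J, val c • ind (cell c) with hg
  have hgspan : g ∈ Submodule.span ℂ {g : X → ℂ | ∃ A, InvS μ z A ∧ g = ind A} :=
    Submodule.sum_mem _ fun c _ => Submodule.smul_mem _ _ (Submodule.subset_span ⟨cell c, hinv c, rfl⟩)
  have hgB : Bd g := by
    rw [hg]
    have : ∀ s : Finset (ℤ × ℤ), Bd (∑ c ∈ s, val c • ind (cell c)) := by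
      intro s
      induction s using Finset.induction_on with
      | empty => exact Bd.const (X := X) 0
      | insert a s ha ih => rw [sum_insert ha]; exact ((ind_bd (hm a)).smul _).add ih
    exact this J
  refine ⟨g, hgspan, hgB, fun p => ?_⟩
  set a := ⌊(n : ℝ) * (f p).re⌋ with ha
  set b := ⌊(n : ℝ) * (f p).im⌋ with hb
  have hbound : ∀ t : ℝ, |t| ≤ |K| → ⌊(n : ℝ) * t⌋ ∈ Icc (-B) B := by
    intro t ht
    rw [mem_Icc]
    have h1 : |(n : ℝ) * t| ≤ n * |K| := by
      rw [abs_mul, abs_of_pos hn0]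
      exact mul_le_mul_of_nonneg_left ht hn0.le
    have h2 := Int.le_ceil ((n : ℝ) * |K|)
    have h3 := Int.floor_le ((n : ℝ) * t)
    have h4 := Int.lt_floor_add_one ((n : ℝ) * t)
    have h5 := abs_le.1 h1
    constructor
    · have : ((-B : ℤ) : ℝ) < (⌊(n : ℝ) * t⌋ : ℝ) + 1 := by
        rw [hB]; push_cast; linarith
      have h6 : -B < ⌊(n : ℝ) * t⌋ + 1 := by exact_mod_cast this
      omega
    · have : (⌊(n : ℝ) * t⌋ : ℝ) ≤ ((B : ℤ) : ℝ) := by
        rw [hB]; push_cast; linarith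
      exact_mod_cast this
  have hfK : ‖f p‖ ≤ |K| := (hK p).trans (le_abs_self K)
  have hmem : (a, b) ∈ J := by
    rw [hJ, mem_product]
    exact ⟨hbound _ ((Complex.abs_re_le_norm _).trans hfK), hbound _ ((Complex.abs_im_le_norm _).trans hfK)⟩
  have hgp : g p = val (a, b) := by
    rw [hg, Finset.sum_apply, sum_eq_single (a, b)]
    · rw [Pi.smul_apply, ind, Set.indicator_of_mem (by exact ⟨rfl, rfl⟩)]
      simp
    · intro c _ hc
      rw [Pi.smul_apply, ind, Set.indicator_of_notMem, smul_zero]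
      rintro ⟨h1, h2⟩
      exact hc (Prod.ext h1.symm h2.symm)
    · intro h; exact absurd hmem h
  rw [Pi.sub_apply, hgp]
  have hr : |(f p).re - (a : ℝ) / n| ≤ 1 / n := by
    have h3 := Int.floor_le ((n : ℝ) * (f p).re)
    have h4 := Int.lt_floor_add_one ((n : ℝ) * (f p).re)
    have e : (f p).re - (a : ℝ) / n = ((n : ℝ) * (f p).re - a) / n := by field_simp
    rw [e, abs_div, abs_of_pos hn0]
    apply div_le_div_of_nonneg_right _ hn0.le
    rw [abs_le]; constructor <;> linarith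
  have hi : |(f p).im - (b : ℝ) / n| ≤ 1 / n := by
    have h3 := Int.floor_le ((n : ℝ) * (f p).im)
    have h4 := Int.lt_floor_add_one ((n : ℝ) * (f p).im)
    have e : (f p).im - (b : ℝ) / n = ((n : ℝ) * (f p).im - b) / n := by field_simp
    rw [e, abs_div, abs_of_pos hn0]
    apply div_le_div_of_nonneg_right _ hn0.le
    rw [abs_le]; constructor <;> linarith
  have h1 := Complex.norm_le_abs_re_add_abs_im (f p - val (a, b))
  have e1 : (f p - val (a, b)).re = (f p).re - (a : ℝ) / n := by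
    simp only [hval, Complex.sub_re, Complex.add_re, Complex.ofReal_re, Complex.mul_re, Complex.I_re,
      Complex.ofReal_im, Complex.I_im]
    ring
  have e2 : (f p - val (a, b)).im = (f p).im - (b : ℝ) / n := by
    simp only [hval, Complex.sub_im, Complex.add_im, Complex.ofReal_re, Complex.mul_im, Complex.I_re,
      Complex.ofReal_im, Complex.I_im]
    ring
  rw [e1, e2] at h1
  have h2 : 2 / (n : ℝ) ≤ ε := by
    rw [div_lt_iff₀ hε] at hn
    rw [div_le_iff₀ hn0]
    linarith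
  have h3 : 1 / (n : ℝ) + 1 / n = 2 / n := by ring
  linarith

theorem MixInvS.drop {N : ℕ} (h : MixInvS μ P z (N + 1)) : MixInvS μ P z N := by
  intro A hA
  have h1 := h (Fin.cons Set.univ A) (by
    intro i
    refine Fin.cases ?_ (fun i => ?_) i
    · exact ⟨MeasurableSet.univ, fun u => by simp⟩
    · rw [Fin.cons_succ]; exact hA i)
  rw [Fin.prod_univ_succ] at h1
  simp only [Fin.cons_zero, Fin.cons_succ, probReal_univ, one_mul] at h1
  rw [tendsto_def] at h1 ⊢
  intro s hs
  obtain ⟨M, hM⟩ := mem_spread.1 (h1 s hs)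
  rw [mem_spread]
  refine ⟨M, fun n hn => ?_⟩
  have hle : ∀ i, n i ≤ ∑ i, |n i| := fun i =>
    (le_abs_self _).trans (single_le_sum (f := fun i => |n i|) (fun i _ => abs_nonneg _) (mem_univ i))
  have h2 := hM (Fin.cons (∑ i, |n i| + M) n) (by
    intro i j
    refine Fin.cases ?_ (fun i => ?_) i
    · refine Fin.cases ?_ (fun j => ?_) j
      · intro h; exact absurd rfl h
      · intro _
        rw [Fin.cons_zero, Fin.cons_succ]
        have h3 := hle j
        have h4 := le_abs_self (∑ i, |n i| + (M : ℤ) - n j)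
        linarith
    · refine Fin.cases ?_ (fun j => ?_) j
      · intro _
        rw [Fin.cons_zero, Fin.cons_succ, abs_sub_comm]
        have h3 := hle i
        have h4 := le_abs_self (∑ i, |n i| + (M : ℤ) - n i)
        linarith
      · intro hij
        rw [Fin.cons_succ, Fin.cons_succ]
        exact hn i j fun h => hij (by rw [h]))
  rw [Set.mem_preimage] at h2 ⊢
  have e : (⋂ i, P ((Fin.cons (∑ i, |n i| + (M : ℤ)) n : Fin (N + 1) → ℤ) i) ⁻¹'
      (Fin.cons Set.univ A : Fin (N + 1) → Set X) i) = ⋂ i, P (n i) ⁻¹' A i := by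
    ext p
    simp only [Set.mem_iInter, Fin.forall_fin_succ, Fin.cons_zero, Fin.cons_succ, Set.preimage_univ,
      Set.mem_univ, true_and]
  rw [e] at h2
  exact h2

theorem MixInvS.drop_le {m N : ℕ} (hm : m ≤ N) (h : MixInvS μ P z N) : MixInvS μ P z m := by
  obtain ⟨k, rfl⟩ := Nat.exists_eq_add_of_le hm
  induction k with
  | zero => exact h
  | succ k ih => exact ih (Nat.le_add_right _ _) (MixInvS.drop h)

theorem mixAll_one (hP : Act μ P) : MixAll μ P 1 := by
  intro f hf
  have : (fun n => C μ P n f) = fun _ : Fin 1 → ℤ => ∏ i, ∫ p, f i p ∂μ := by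
    funext n
    unfold C
    simp only [Fin.prod_univ_one]
    exact comp_int (hP.mp (n 0)) (hf 0).meas
  rw [this]
  exact tendsto_const_nhds

theorem main_mix (hP : Act μ P) {x : ℝ → X → X} {r : ℤ → ℝ} (hr : Rate r)
    (hx : ∀ ε, MeasurePreserving (x ε) μ μ) (hz : Flow μ z) (hs : Shears μ P x z r)
    (hcomm : ∀ l u, Same μ (P l ∘ z u) (z u ∘ P l)) :
    ∀ N, 1 ≤ N → MixInvS μ P z N → MixAll μ P N := by
  intro N
  induction N using Nat.strong_induction_on with
  | _ N ih =>
  intro hN h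
  rcases Nat.lt_or_ge N 2 with h2 | h2
  · have : N = 1 := by omega
    subst this
    exact mixAll_one hP
  obtain ⟨n, rfl⟩ : ∃ n, N = n + 2 := ⟨N - 2, by omega⟩
  have hN' : MixAll μ P (n + 1) := ih (n + 1) (by omega) (by omega) h.drop
  intro f hf
  rw [tendsto_iff_ultrafilter]
  intro U hU
  suffices hD : ∀ f : Fin (n + 2) → X → ℂ, (∀ i, f i ∈ {f : X → ℂ | Bd f}) → Def μ P U f = 0 by
    have h3 := hD f hf
    unfold Def at h3
    rw [← sub_eq_zero.1 h3]
    exact tendsto_L hf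
  have hML : ML (Def μ P U) := ml_def hP
  -- indicator functions of invariant sets
  have D0 : ∀ f : Fin (n + 2) → X → ℂ, (∀ i, f i ∈ {g : X → ℂ | ∃ A, InvS μ z A ∧ g = ind A}) →
      Def μ P U f = 0 := by
    intro f hf
    choose A hA hfA using hf
    have hfe : f = fun i => ind (A i) := funext hfA
    have h3 := (h A hA).mono_left hU
    unfold Def
    rw [sub_eq_zero, hfe]
    apply L_eq fun i => ind_bd (hA i).1
    simp_rw [C_ind hP fun i => (hA i).1, int_ind (hA _).1]
    have h4 := (Complex.continuous_ofReal.tendsto _).comp h3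
    have e : ((∏ i, μ.real (A i) : ℝ) : ℂ) = ∏ i, ((μ.real (A i) : ℝ) : ℂ) := by push_cast; rfl
    rw [e] at h4
    exact h4
  -- invariant functions
  have D1 : ∀ f : Fin (n + 2) → X → ℂ, (∀ i, f i ∈ InvF μ z) → Def μ P U f = 0 := by
    apply upgrade hML _ _ (by rintro f ⟨A, hA, rfl⟩; exact ind_bd hA.1) (fun f hf => hf.1) _ D0
    intro f hf η hη
    obtain ⟨g, hg, hgB, hfg⟩ := approx_inv hf (η / 2) (by positivity)
    refine ⟨g, hg, fun K hK1 F hF hFK j => ?_⟩
    have hh : Bd (f - g) := hf.1.sub hgB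
    unfold Def
    refine (norm_sub_le _ _).trans ?_
    have h3 := L_update_le hP hF K hK1 hFK j hh (η / 2) hfg (U := U)
    have h4 := prod_update_le (μ := μ) K hK1 hFK j (f - g)
    have h5 : ‖∫ p, (f - g) p ∂μ‖ ≤ η / 2 := norm_int_le _ hfg
    have h6 : K ^ (n + 2) ≤ K ^ (n + 2 + 1) := pow_le_pow_right₀ hK1 (by omega)
    have h7 : 0 ≤ K ^ (n + 2) := by positivity
    have h8 : K ^ (n + 2) * ‖∫ p, (f - g) p ∂μ‖ ≤ K ^ (n + 2) * (η / 2) := mul_le_mul_of_nonneg_left h5 h7
    nlinarith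
  -- eigenfunctions
  have D2 : ∀ f : Fin (n + 2) → X → ℂ, (∀ i, f i ∈ EigF μ z) → Def μ P U f = 0 := by
    intro f hf
    by_cases hall : ∀ i, f i ∈ InvF μ z
    · exact D1 f hall
    push Not at hall
    obtain ⟨j, hj⟩ := hall
    have hfB : ∀ i, Bd (f i) := fun i => (hf i).1
    obtain ⟨hfj, χ, hχ, hev⟩ := hf j
    obtain ⟨u₀, hu₀⟩ : ∃ u₀, χ u₀ ≠ 1 := by
      by_contra hcon
      push Not at hcon
      apply hj
      refine ⟨hfj, fun u => ?_⟩
      have := hev u
      rw [hcon u] at this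
      simpa using this
    have hj0 : ∫ p, f j p ∂μ = 0 := int_zero hz hfj (hev u₀) hu₀
    have hL : L μ P U f = 0 := by
      rcases Nat.eq_zero_or_pos n with hn | hn
      · subst hn
        exact stepE2 hP hr hx hz hs hU hfB j hev hu₀
      · have hm2 : MixAll μ P 2 := ih 2 (by omega) (by omega) (h.drop_le (by omega))
        refine stepE hP hz hcomm (fun g hg => ?_) hm2 hf j hj0
        have := D1 g hg
        unfold Def at this
        exact sub_eq_zero.1 this
    unfold Def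
    rw [hL, prod_eq_zero (mem_univ j) hj0, sub_zero]
  -- all functions
  apply upgrade hML (EigF μ z) _ (fun f hf => hf.1) (fun f hf => hf) _ D2
  intro f hf η hη
  obtain ⟨g, hg, hgB, M, hM, hsum, hint⟩ := kron hz hf (min (η / 2) ((η / 2) ^ 2)) (by positivity)
  refine ⟨g, hg, fun K hK1 F hF hFK j => ?_⟩
  have hh : Bd (f - g) := hf.sub hgB
  have h3 := stepW hP hr hx hz hs (by omega) hN' hU j hF K hK1 hFK hh M hM _ hsum
  have h4 := prod_update_le (μ := μ) K hK1 hFK j (f - g)
  have h5 : ‖∫ p, (f - g) p ∂μ‖ ≤ η / 2 := hint.trans (min_le_left _ _)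
  have h6 : ‖L μ P U (Function.update F j (f - g))‖ ≤ η / 2 * K ^ (n + 1 + 2) := by
    have h7 : ‖L μ P U (Function.update F j (f - g))‖ ^ 2 ≤ (η / 2 * K ^ (n + 1 + 2)) ^ 2 := by
      refine h3.trans ?_
      rw [mul_pow]
      exact mul_le_mul_of_nonneg_right (min_le_right _ _) (by positivity)
    exact (pow_le_pow_iff_left₀ (norm_nonneg _) (by positivity) (by norm_num)).1 h7
  have h8 : K ^ (n + 2) * ‖∫ p, (f - g) p ∂μ‖ ≤ η / 2 * K ^ (n + 1 + 2) := by
    have h9 : K ^ (n + 2) ≤ K ^ (n + 1 + 2) := pow_le_pow_right₀ hK1 (by omega)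
    calc K ^ (n + 2) * ‖∫ p, (f - g) p ∂μ‖ ≤ K ^ (n + 1 + 2) * (η / 2) :=
          mul_le_mul h9 h5 (norm_nonneg _) (by positivity)
      _ = _ := by ring
  unfold Def
  refine (norm_sub_le _ _).trans ?_
  have e : K ^ (n + 2 + 1) = K ^ (n + 1 + 2) := by ring
  rw [e]
  linarith

end Pool.Agent.W42.RN
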