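import Mathlib
import Pool.Agent.W42.RN.Main

set_option autoImplicit false
set_option linter.unusedSectionVars false
set_option linter.unusedVariables false

/-!
From spread out time vectors to the gap form of multiple mixing.
-/

namespace Pool.Agent.W42.RN

open MeasureTheory Filter Topology Finset

variable {X : Type} [MeasurableSpace X]

/-- the integer powers of an automorphism -/
def pw (T : X ≃ᵐ X) (m : ℤ) : X → X := ⇑((T.toEquiv : Equiv.Perm X) ^ m)

/-- mixing of multiplicity `k` for the sets satisfying `Q` -/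
def MixOn (μ : Measure X) (T : X → X) (Q : Set X → Prop) (k : ℕ) : Prop :=
  ∀ A : ℕ → Set X, (∀ i, MeasurableSet (A i) ∧ Q (A i)) → ∀ ε : ℝ, 0 < ε →
    ∃ N : ℕ, ∀ m : ℕ → ℕ, (∀ j < k, N ≤ m j) →
      |μ.real (⋂ i ∈ Finset.range (k + 1), T^[∑ j ∈ Finset.range i, m j] ⁻¹' A i)
          - ∏ i ∈ Finset.range (k + 1), μ.real (A i)| < ε

variable {μ : Measure X} [IsProbabilityMeasure μ]

theorem pw_nat (T : X ≃ᵐ X) (n : ℕ) : pw T (n : ℤ) = T^[n] := by
  unfold pw
  rw [zpow_natCast, ← Equiv.Perm.iterate_eq_pow]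
  rfl

theorem pw_neg (T : X ≃ᵐ X) (n : ℕ) : pw T (-(n : ℤ)) = T.symm^[n] := by
  unfold pw
  rw [zpow_neg, zpow_natCast, ← inv_pow, ← Equiv.Perm.iterate_eq_pow]
  rfl

theorem act_pw {T : X ≃ᵐ X} (hT : MeasurePreserving T μ μ) : Act μ (pw T) := by
  refine ⟨fun n => ?_, ?_, fun m n => ?_⟩
  · have hT' : MeasurePreserving T.symm μ μ := hT.symm T
    obtain ⟨k, rfl | rfl⟩ := n.eq_nat_or_neg
    · rw [pw_nat]; exact hT.iterate k
    · rw [pw_neg]; exact hT'.iterate k
  · unfold pw; rw [zpow_zero]; rfl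
  · unfold pw; rw [zpow_add]; rfl

theorem spread_of_gaps {T : X ≃ᵐ X} (hT : MeasurePreserving T μ μ) {Q : Set X → Prop} {k : ℕ}
    (h : MixOn μ T Q k) (A : Fin (k + 1) → Set X) (hA : ∀ i, MeasurableSet (A i) ∧ Q (A i)) :
    Tendsto (fun n : Fin (k + 1) → ℤ => μ.real (⋂ i, pw T (n i) ⁻¹' A i)) (spread (k + 1))
      (𝓝 (∏ i, μ.real (A i))) := by
  have hP := act_pw hT
  rw [Metric.tendsto_nhds]
  intro ε hε
  choose N hN using fun σ : Equiv.Perm (Fin (k + 1)) =>
    h (fun i => A (σ (Fin.ofNat (k + 1) i))) (fun i => hA _) ε hε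
  refine mem_spread.2 ⟨univ.sup N, fun n hn => ?_⟩
  show dist (μ.real (⋂ i, pw T (n i) ⁻¹' A i)) (∏ i, μ.real (A i)) < ε
  set σ := Tuple.sort n with hσ
  have hmono : Monotone (n ∘ σ) := Tuple.monotone_sort n
  set e : ℕ → ℤ := fun j => n (σ (Fin.ofNat (k + 1) j)) with he
  have hval : ∀ j, j < k + 1 → (Fin.ofNat (k + 1) j : Fin (k + 1)).val = j := fun j hj => by
    simp [Fin.ofNat, Nat.mod_eq_of_lt hj]
  have hstep : ∀ j, j < k → e j ≤ e (j + 1) ∧ (N σ : ℤ) ≤ e (j + 1) - e j := by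
    intro j hj
    have h1 : (Fin.ofNat (k + 1) j : Fin (k + 1)) < Fin.ofNat (k + 1) (j + 1) := by
      rw [Fin.lt_def, hval j (by omega), hval (j + 1) (by omega)]; omega
    have h2 : e j ≤ e (j + 1) := hmono h1.le
    have h3 := hn (σ (Fin.ofNat (k + 1) (j + 1))) (σ (Fin.ofNat (k + 1) j)) (fun h4 => by
      have := σ.injective h4
      exact absurd this.symm h1.ne)
    have h4 : ((N σ : ℕ) : ℤ) ≤ ((univ.sup N : ℕ) : ℤ) := by
      exact_mod_cast le_sup (f := N) (mem_univ σ)
    refine ⟨h2, ?_⟩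
    have h5 : |e (j + 1) - e j| = e (j + 1) - e j := abs_of_nonneg (by linarith)
    have h6 : ((univ.sup N : ℕ) : ℤ) ≤ |e (j + 1) - e j| := h3
    rw [h5] at h6
    linarith
  set m : ℕ → ℕ := fun j => (e (j + 1) - e j).toNat with hm
  have hsum : ∀ i, i < k + 1 → ((∑ j ∈ range i, m j : ℕ) : ℤ) = e i - e 0 := by
    intro i
    induction i with
    | zero => intro _; simp
    | succ i ih =>
      intro hi
      rw [sum_range_succ]
      push_cast
      have h1 := ih (by omega)
      push_cast at h1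
      rw [h1]
      have h2 : ((m i : ℕ) : ℤ) = e (i + 1) - e i := by
        simp only [hm]
        rw [Int.toNat_of_nonneg]
        have := (hstep i (by omega)).1
        linarith
      rw [h2]; ring
  have h1 := hN σ m (fun j hj => by
    have h2 := (hstep j hj).2
    have h3 : ((m j : ℕ) : ℤ) = e (j + 1) - e j := by
      simp only [hm]
      rw [Int.toNat_of_nonneg]
      have := (hstep j hj).1
      linarith
    have h4 : ((N σ : ℕ) : ℤ) ≤ ((m j : ℕ) : ℤ) := by rw [h3]; exact h2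
    exact_mod_cast h4)
  have e1 : ∏ i ∈ range (k + 1), μ.real (A (σ (Fin.ofNat (k + 1) i))) = ∏ i, μ.real (A i) := by
    rw [Finset.prod_range, ← Equiv.prod_comp σ (fun i => μ.real (A i))]
    refine prod_congr rfl fun i _ => ?_
    have h2 : (Fin.ofNat (k + 1) i.val : Fin (k + 1)) = i := Fin.ext (hval i.val i.isLt)
    rw [h2]
  have e2 : μ.real (⋂ i ∈ range (k + 1), T^[∑ j ∈ range i, m j] ⁻¹' A (σ (Fin.ofNat (k + 1) i))) =
      μ.real (⋂ i, pw T (n i) ⁻¹' A i) := by
    set S : Set X := ⋂ i ∈ range (k + 1), T^[∑ j ∈ range i, m j] ⁻¹' A (σ (Fin.ofNat (k + 1) i)) with hS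
    have hSm : MeasurableSet S := by
      refine MeasurableSet.biInter (Set.to_countable _) fun i _ => ?_
      exact (hT.iterate _).measurable (hA _).1
    have h2 : (⋂ i, pw T (n i) ⁻¹' A i) = pw T (e 0) ⁻¹' S := by
      ext p
      simp only [hS, Set.mem_iInter, Set.mem_preimage, mem_range]
      have key : ∀ i, i < k + 1 → T^[∑ j ∈ range i, m j] (pw T (e 0) p) = pw T (e i) p := by
        intro i hi
        rw [← pw_nat, hsum i hi]
        have := congrFun (hP.add (e i - e 0) (e 0)) p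
        rw [sub_add_cancel] at this
        exact this.symm
      constructor
      · intro h3 i hi
        rw [key i hi]
        exact h3 _
      · intro h3 i
        have h4 := h3 (σ.symm i).val (σ.symm i).isLt
        rw [key _ (σ.symm i).isLt] at h4
        have h5 : (Fin.ofNat (k + 1) (σ.symm i).val : Fin (k + 1)) = σ.symm i :=
          Fin.ext (hval _ (σ.symm i).isLt)
        simp only [he] at h4
        rw [h5, Equiv.apply_symm_apply] at h4
        exact h4
    rw [h2, (hP.mp (e 0)).measureReal_preimage hSm.nullMeasurableSet]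
  rw [e1, e2] at h1
  rw [Real.dist_eq]
  exact h1

theorem gaps_of_mixAll {T : X ≃ᵐ X} (hT : MeasurePreserving T μ μ) {k : ℕ}
    (h : MixAll μ (pw T) (k + 1)) : MixOn μ T (fun _ => True) k := by
  have hP := act_pw hT
  intro A hA ε hε
  have h1 := h (fun i : Fin (k + 1) => ind (A i)) (fun i => ind_bd (hA i).1)
  simp_rw [C_ind hP fun i : Fin (k + 1) => (hA i).1, int_ind (hA _).1] at h1
  have h2 := (Complex.continuous_re.tendsto _).comp h1
  have e : (∏ i : Fin (k + 1), ((μ.real (A i) : ℝ) : ℂ)).re = ∏ i : Fin (k + 1), μ.real (A i) := by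
    rw [← Complex.ofReal_prod, Complex.ofReal_re]
  rw [e] at h2
  have h3 := (Metric.tendsto_nhds.1 h2) ε hε
  obtain ⟨M, hM⟩ := mem_spread.1 h3
  refine ⟨M, fun m hm => ?_⟩
  have h4 := hM (fun i => ((∑ j ∈ range i.val, m j : ℕ) : ℤ)) (by
    have key : ∀ i j : Fin (k + 1), i < j →
        (M : ℤ) ≤ ((∑ l ∈ range j.val, m l : ℕ) : ℤ) - ((∑ l ∈ range i.val, m l : ℕ) : ℤ) := by
      intro i j hij
      have h5 : ∑ l ∈ range i.val, m l + m i.val ≤ ∑ l ∈ range j.val, m l := by
        rw [← sum_range_succ]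
        exact sum_le_sum_of_subset (range_subset_range.2 hij)
      have h6 := hm i.val (by have := j.isLt; have : i.val < j.val := hij; omega)
      have h7 : ∑ l ∈ range i.val, m l + M ≤ ∑ l ∈ range j.val, m l := by omega
      have h8 : ((∑ l ∈ range i.val, m l : ℕ) : ℤ) + M ≤ ((∑ l ∈ range j.val, m l : ℕ) : ℤ) := by
        exact_mod_cast h7
      linarith
    intro i j hij
    rcases lt_or_gt_of_ne hij with h5 | h5
    · have h6 := key i j h5
      rw [abs_sub_comm]
      exact h6.trans (le_abs_self _)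
    · exact (key j i h5).trans (le_abs_self _))
  have h5 : |μ.real (⋂ i : Fin (k + 1), pw T ((∑ j ∈ range i.val, m j : ℕ) : ℤ) ⁻¹' A i) -
      ∏ i : Fin (k + 1), μ.real (A i)| < ε := h4
  rw [Finset.prod_range]
  have e2 : (⋂ i ∈ range (k + 1), T^[∑ j ∈ range i, m j] ⁻¹' A i) =
      ⋂ i : Fin (k + 1), pw T ((∑ j ∈ range i.val, m j : ℕ) : ℤ) ⁻¹' A i := by
    ext p
    simp only [Set.mem_iInter, Set.mem_preimage, mem_range]
    constructor
    · intro h6 i
      rw [pw_nat]
      exact h6 i.val i.isLt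
    · intro h6 i hi
      have := h6 ⟨i, hi⟩
      rw [pw_nat] at this
      exact this
  rw [e2]
  exact h5

/-- multiple mixing is decided on the invariant sets of the sheared flow -/
theorem reduction {T : X ≃ᵐ X} (hT : MeasurePreserving T μ μ) {z : ℝ → X → X} (hz : Flow μ z)
    (hTz : ∀ u, Same μ (T ∘ z u) (z u ∘ T)) {x : ℝ → X → X} (hx : ∀ ε, MeasurePreserving (x ε) μ μ)
    {r : ℤ → ℝ} (hr : Rate r) (hs : Shears μ (pw T) x z r) (k : ℕ)
    (h : MixOn μ T (fun A => ∀ u, z u ⁻¹' A =ᵐ[μ] A) k) : MixOn μ T (fun _ => True) k := by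
  have hP := act_pw hT
  apply gaps_of_mixAll hT
  have hT' : MeasurePreserving T.symm μ μ := hT.symm T
  have hcomm : ∀ l u, Same μ (pw T l ∘ z u) (z u ∘ pw T l) := by
    have h1 : ∀ (S : X → X), MeasurePreserving S μ μ → ∀ u, Same μ (S ∘ z u) (z u ∘ S) →
        ∀ n : ℕ, Same μ (S^[n] ∘ z u) (z u ∘ S^[n]) := by
      intro S hS u hSz n
      induction n with
      | zero => intro A hA; exact EventuallyEq.refl _ _
      | succ n ih =>
        have g1 : Same μ (S^[n + 1] ∘ z u) (S ∘ (z u ∘ S^[n])) := by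
          rw [Function.iterate_succ']
          exact ih.left hS.measurable
        have g2 : Same μ ((S ∘ z u) ∘ S^[n]) ((z u ∘ S) ∘ S^[n]) := hSz.right (hS.iterate n)
        have g3 := g1.trans g2
        rw [Function.iterate_succ'] at g3 ⊢
        exact g3
    have hsym : ∀ u, Same μ (T.symm ∘ z u) (z u ∘ T.symm) := by
      intro u
      have g1 := ((hTz u).symm.left (R := T.symm) T.symm.measurable).right hT'
      have e1 : (T.symm ∘ (z u ∘ T)) ∘ T.symm = T.symm ∘ z u := by
        funext p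
        simp only [Function.comp_apply, T.apply_symm_apply]
      have e2 : (T.symm ∘ (T ∘ z u)) ∘ T.symm = z u ∘ T.symm := by
        funext p
        simp only [Function.comp_apply, T.symm_apply_apply]
      rw [e1, e2] at g1
      exact g1
    intro l u
    obtain ⟨n, rfl | rfl⟩ := l.eq_nat_or_neg
    · rw [pw_nat]; exact h1 T hT u (hTz u) n
    · rw [pw_neg]; exact h1 T.symm hT' u (hsym u) n
  apply main_mix hP hr hx hz hs hcomm (k + 1) (by omega)
  intro A hA
  exact spread_of_gaps hT h A hA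

/-- the ergodic case -/
theorem mixOn_trivial {T : X ≃ᵐ X} (hT : MeasurePreserving T μ μ) {Q : Set X → Prop}
    (hQ : ∀ A, MeasurableSet A → Q A → μ A = 0 ∨ μ A = 1) (k : ℕ) : MixOn μ T Q k := by
  intro A hA ε hε
  refine ⟨0, fun m _ => ?_⟩
  suffices h : μ.real (⋂ i ∈ Finset.range (k + 1), T^[∑ j ∈ Finset.range i, m j] ⁻¹' A i) =
      ∏ i ∈ Finset.range (k + 1), μ.real (A i) by
    rw [h, sub_self, abs_zero]; exact hε
  have hpre : ∀ i, μ (T^[∑ j ∈ Finset.range i, m j] ⁻¹' A i) = μ (A i) := fun i =>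
    (hT.iterate _).measure_preimage (hA i).1.nullMeasurableSet
  by_cases h0 : ∃ i ∈ Finset.range (k + 1), μ (A i) = 0
  · obtain ⟨i, hi, h1⟩ := h0
    rw [prod_eq_zero hi (by rw [measureReal_def, h1]; rfl)]
    rw [measureReal_def]
    have h2 : μ (⋂ i ∈ Finset.range (k + 1), T^[∑ j ∈ Finset.range i, m j] ⁻¹' A i) ≤ 0 := by
      rw [← h1, ← hpre i]
      exact measure_mono (Set.biInter_subset_of_mem hi)
    rw [nonpos_iff_eq_zero.1 h2]
    rfl
  · push Not at h0
    have h1 : ∀ i ∈ Finset.range (k + 1), μ (A i) = 1 := fun i hi =>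
      (hQ (A i) (hA i).1 (hA i).2).resolve_left (h0 i hi)
    rw [prod_eq_one fun i hi => by rw [measureReal_def, h1 i hi]; rfl]
    have h2 : ∀ i ∈ Finset.range (k + 1), ∀ᵐ p ∂μ, p ∈ T^[∑ j ∈ Finset.range i, m j] ⁻¹' A i := by
      intro i hi
      have hm : MeasurableSet (T^[∑ j ∈ Finset.range i, m j] ⁻¹' A i) := (hT.iterate _).measurable (hA i).1
      exact mem_ae_iff.2 ((prob_compl_eq_zero_iff hm).2 (by rw [hpre i, h1 i hi]))
    have h3 : ∀ᵐ p ∂μ, p ∈ ⋂ i ∈ Finset.range (k + 1), T^[∑ j ∈ Finset.range i, m j] ⁻¹' A i := by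
      have h4 := (ae_ball_iff (Set.to_countable (↑(Finset.range (k + 1)) : Set ℕ))).2
        (fun i hi => h2 i (by simpa using hi))
      filter_upwards [h4] with p hp
      rw [Set.mem_iInter₂]
      intro i hi
      exact hp i (by simpa using hi)
    have h5 : (⋂ i ∈ Finset.range (k + 1), T^[∑ j ∈ Finset.range i, m j] ⁻¹' A i) =ᵐ[μ] Set.univ :=
      eventuallyEq_univ.2 h3
    rw [measureReal_congr h5, probReal_univ]

end Pool.Agent.W42.RN
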