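import Mathlib
import Pool.Agent.W42.RN.Ord

set_option autoImplicit false
set_option linter.unusedSectionVars false
set_option linter.unusedVariables false

/-!
The reduction relative to an invariant σ-algebra.
-/

namespace Pool.Agent.W42.RN

open MeasureTheory Filter Topology Finset

variable {X : Type}

/-- two maps agree on the measure algebra of `m` -/
def SameOn (m : MeasurableSpace X) [MeasurableSpace X] (μ : Measure X) (S S' : X → X) : Prop :=
  ∀ A, MeasurableSet[m] A → S ⁻¹' A =ᵐ[μ] S' ⁻¹' A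

/-- bounded and measurable with respect to `m` -/
def BdOn (m : MeasurableSpace X) (f : X → ℂ) : Prop := Measurable[m] f ∧ ∃ C : ℝ, ∀ p, ‖f p‖ ≤ C

/-- a measure preserving flow on the measure algebra of `m`, continuous in the mean -/
structure FlowOn (m : MeasurableSpace X) [MeasurableSpace X] (μ : Measure X) (z : ℝ → X → X) : Prop where
  mp : ∀ u, MeasurePreserving (z u) μ μ
  meas : ∀ u, Measurable[m, m] (z u)
  zero : SameOn m μ (z 0) id
  add : ∀ u v, SameOn m μ (z (u + v)) (z u ∘ z v)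
  cont : ∀ f : X → ℂ, BdOn m f → ∀ u,
    Tendsto (fun v => ∫ p, ‖f (z v p) - f (z u p)‖ ∂μ) (𝓝 u) (𝓝 0)

/-- shearing on the measure algebra of `m` -/
def ShearsOn (m : MeasurableSpace X) [MeasurableSpace X] (μ : Measure X) (T : X ≃ X)
    (x : ℝ → X → X) (z : ℝ → X → X) (r : ℤ → ℝ) : Prop :=
  ∀ f : X → ℂ, BdOn m f → ∀ U δ : ℝ, 0 < U → 0 < δ → ∃ ε₀ > 0, ∀ ε : ℝ, 0 < ε → ε < ε₀ →
    ∀ n : ℤ, ε * |r n| ≤ U →
      ∫ p, ‖f ((T ^ n : Equiv.Perm X) (x ε p)) - f (z (ε * r n) ((T ^ n : Equiv.Perm X) p))‖ ∂μ ≤ δ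

theorem ae_iff_trim {m : MeasurableSpace X} [mX : MeasurableSpace X] {μ : Measure X} (hm : m ≤ mX)
    {A B : Set X} (hA : MeasurableSet[m] A) (hB : MeasurableSet[m] B) :
    A =ᵐ[μ.trim hm] B ↔ A =ᵐ[μ] B := by
  rw [ae_eq_set, ae_eq_set, trim_measurableSet_eq hm (hA.diff hB), trim_measurableSet_eq hm (hB.diff hA)]

theorem mp_trim {m : MeasurableSpace X} [mX : MeasurableSpace X] {μ : Measure X} (hm : m ≤ mX)
    {S : X → X} (hS : MeasurePreserving S μ μ) (hSm : Measurable[m, m] S) :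
    @MeasurePreserving X X m m S (μ.trim hm) (μ.trim hm) := by
  refine @MeasurePreserving.mk X X m m S (μ.trim hm) (μ.trim hm) hSm ?_
  refine @Measure.ext X m _ _ fun A hA => ?_
  rw [@Measure.map_apply X X m m (μ.trim hm) S hSm A hA, trim_measurableSet_eq hm hA,
    trim_measurableSet_eq hm (hSm hA), hS.measure_preimage (hm A hA).nullMeasurableSet]

theorem int_trim {m : MeasurableSpace X} [mX : MeasurableSpace X] {μ : Measure X} (hm : m ≤ mX)
    {F : X → ℝ} (hF : Measurable[m] F) : ∫ p, F p ∂(μ.trim hm) = ∫ p, F p ∂μ :=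
  (integral_trim hm hF.stronglyMeasurable).symm

theorem reduction_on {m : MeasurableSpace X} [mX : MeasurableSpace X] {μ : Measure X}
    [IsProbabilityMeasure μ] {T : X ≃ᵐ X} (hT : MeasurePreserving T μ μ) (hm : m ≤ mX)
    (hTm : Measurable[m, m] T) (hTm' : Measurable[m, m] T.symm) {z : ℝ → X → X} (hz : FlowOn m μ z)
    (hTz : ∀ u, SameOn m μ (T ∘ z u) (z u ∘ T)) {x : ℝ → X → X}
    (hx : ∀ ε, MeasurePreserving (x ε) μ μ) (hxm : ∀ ε, Measurable[m, m] (x ε))
    {r : ℤ → ℝ} (hr : Rate r) (hs : ShearsOn m μ T.toEquiv x z r) (k : ℕ)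
    (h : MixOn μ T (fun A => MeasurableSet[m] A ∧ ∀ u, z u ⁻¹' A =ᵐ[μ] A) k) :
    MixOn μ T (fun A => MeasurableSet[m] A) k := by
  set T' : @MeasurableEquiv X X m m := @MeasurableEquiv.mk X X m m T.toEquiv hTm hTm' with hT'
  have hprob : @IsProbabilityMeasure X m (μ.trim hm) := by
    refine @IsProbabilityMeasure.mk X m (μ.trim hm) ?_
    rw [trim_measurableSet_eq hm (@MeasurableSet.univ X m)]
    exact measure_univ
  have hTn : ∀ n : ℕ, Measurable[m, m] (T^[n]) := fun n => @Measurable.iterate X m T hTm n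
  have hTpw : ∀ n : ℤ, Measurable[m, m] (((T.toEquiv : Equiv.Perm X) ^ n : Equiv.Perm X) : X → X) := by
    intro n
    obtain ⟨k, rfl | rfl⟩ := n.eq_nat_or_neg
    · have h1 := pw_nat T k
      unfold pw at h1
      rw [h1]; exact hTn k
    · have h1 := pw_neg T k
      unfold pw at h1
      rw [h1]; exact @Measurable.iterate X m T.symm hTm' k
  have hinter : ∀ (k : ℕ) (g : ℕ → ℕ) (A : ℕ → Set X), (∀ i, MeasurableSet[m] (A i)) →
      MeasurableSet[m] (⋂ i ∈ Finset.range (k + 1), T^[∑ j ∈ Finset.range i, g j] ⁻¹' A i) := by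
    intro k g A hA
    refine @MeasurableSet.biInter X ℕ m _ _ (Set.to_countable _) fun i _ => ?_
    exact hTn _ (hA i)
  have hreal : ∀ A, MeasurableSet[m] A → (μ.trim hm).real A = μ.real A := by
    intro A hA
    rw [measureReal_def, measureReal_def, trim_measurableSet_eq hm hA]
  have key := @reduction X m (μ.trim hm) hprob T' (mp_trim hm hT hTm) z
    (@Flow.mk X m (μ.trim hm) z (fun u => mp_trim hm (hz.mp u) (hz.meas u))
      (fun A hA => (ae_iff_trim hm (hz.meas 0 hA) hA).2 (hz.zero A hA))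
      (fun u v A hA => (ae_iff_trim hm (hz.meas _ hA) (hz.meas v (hz.meas u hA))).2 (hz.add u v A hA))
      (fun f hf u => by
        have hfm : Measurable[m] f := @Bd.meas X m f hf
        have h1 := hz.cont f ⟨hfm, @Bd.bdd X m f hf⟩ u
        refine h1.congr fun v => ?_
        rw [int_trim hm]
        exact measurable_norm.comp ((hfm.comp (hz.meas v)).sub (hfm.comp (hz.meas u)))))
    (fun u A hA => (ae_iff_trim hm ((hz.meas u) (hTm hA)) (hTm (hz.meas u hA))).2 (hTz u A hA)) x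
    (fun ε => mp_trim hm (hx ε) (hxm ε)) r hr
    (by
      intro f hf U δ hU hδ
      have hfm : Measurable[m] f := @Bd.meas X m f hf
      obtain ⟨ε₀, hε₀, h1⟩ := hs f ⟨hfm, @Bd.bdd X m f hf⟩ U δ hU hδ
      refine ⟨ε₀, hε₀, fun ε hε hεlt n hn => ?_⟩
      have h2 := h1 ε hε hεlt n hn
      rw [int_trim hm]
      · exact h2
      · exact measurable_norm.comp ((hfm.comp ((hTpw n).comp (hxm ε))).sub
          (hfm.comp ((hz.meas _).comp (hTpw n))))) k
    (by
      intro A hA ε hε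
      obtain ⟨N, hN⟩ := h A (fun i => ⟨hm _ (hA i).1, (hA i).1, fun u =>
        (ae_iff_trim hm (hz.meas u (hA i).1) (hA i).1).1 ((hA i).2 u)⟩) ε hε
      refine ⟨N, fun g hg => ?_⟩
      have h1 := hN g hg
      show |(μ.trim hm).real (⋂ i ∈ Finset.range (k + 1), T^[∑ j ∈ Finset.range i, g j] ⁻¹' A i) -
        ∏ i ∈ Finset.range (k + 1), (μ.trim hm).real (A i)| < ε
      rw [hreal _ (hinter k g A fun i => (hA i).1), prod_congr rfl fun i _ => hreal _ (hA i).1]
      exact h1)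
  intro A hA ε hε
  obtain ⟨N, hN⟩ := key A (fun i => ⟨(hA i).2, trivial⟩) ε hε
  refine ⟨N, fun g hg => ?_⟩
  have h1 : |(μ.trim hm).real (⋂ i ∈ Finset.range (k + 1), T^[∑ j ∈ Finset.range i, g j] ⁻¹' A i) -
      ∏ i ∈ Finset.range (k + 1), (μ.trim hm).real (A i)| < ε := hN g hg
  rw [hreal _ (hinter k g A fun i => (hA i).2), prod_congr rfl fun i _ => hreal _ (hA i).2] at h1
  exact h1

end Pool.Agent.W42.RN
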