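import Mathlib
import Pool.Agent.W42.RN.Rel

/-!
# A reduction of multiple mixing along sheared flows

Let `T` be an automorphism of a probability space and `z` a measure preserving flow commuting with
`T`.  Suppose that there are small measure preserving perturbations `x ε` of the identity (`ε → 0`)
which are sheared by `T` in the direction of `z`: `T ^ n ∘ x ε` is close to `z (ε * r n) ∘ T ^ n`
as long as `ε * |r n|` stays bounded, where `r` is any doubling rate tending to infinity (for
instance a power of `n`).  Then for every `k` the automorphism `T` is mixing of multiplicity `k` if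
and only if it is mixing of multiplicity `k` on the `σ`-algebra of the `z`-invariant sets.  In
particular `T` is mixing of all orders if `z` is ergodic.

Typical case: `T`, `x`, `z` come from an action of the Heisenberg group, with `z` the centre and
`T x_s T⁻¹ = x_s z_s`; more generally `T` is any non central element of a nilpotent Lie group.

The theorem is relative to a `T`-invariant `σ`-algebra `m`, and all hypotheses are only required on
the measure algebra of `m`, so that it can be applied again on the invariant sets of `z`.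
-/

set_option autoImplicit false

namespace Pool.Agent.W42.RN.ShearingReduction

open MeasureTheory Filter Topology

variable {X : Type}

/-- `T` is mixing of multiplicity `k` for the sets in the class `Q`: for all measurable sets
`A 0, ..., A k` in `Q`, the measure of `⋂ T^{-s i} (A i)` tends to `∏ μ (A i)` as all the gaps
`m j = s (j+1) - s j` between `0 = s 0 < s 1 < ... < s k` tend to infinity. -/
def MixOn [MeasurableSpace X] (μ : Measure X) (T : X → X) (Q : Set X → Prop) (k : ℕ) : Prop :=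
  ∀ A : ℕ → Set X, (∀ i, MeasurableSet (A i) ∧ Q (A i)) → ∀ ε : ℝ, 0 < ε →
    ∃ N : ℕ, ∀ m : ℕ → ℕ, (∀ j < k, N ≤ m j) →
      |μ.real (⋂ i ∈ Finset.range (k + 1), T^[∑ j ∈ Finset.range i, m j] ⁻¹' A i)
          - ∏ i ∈ Finset.range (k + 1), μ.real (A i)| < ε

/-- The maps `S` and `S'` agree on the measure algebra of `m`. -/
def SameOn (m : MeasurableSpace X) [MeasurableSpace X] (μ : Measure X) (S S' : X → X) : Prop :=
  ∀ A, MeasurableSet[m] A → S ⁻¹' A =ᵐ[μ] S' ⁻¹' A

/-- `z` is a measure preserving flow which preserves `m`, satisfies the group law on the measure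
algebra of `m` and is continuous in the mean on bounded `m`-measurable functions. -/
structure FlowOn (m : MeasurableSpace X) [MeasurableSpace X] (μ : Measure X) (z : ℝ → X → X) :
    Prop where
  mp : ∀ u, MeasurePreserving (z u) μ μ
  meas : ∀ u, Measurable[m, m] (z u)
  zero : SameOn m μ (z 0) id
  add : ∀ u v, SameOn m μ (z (u + v)) (z u ∘ z v)
  cont : ∀ f : X → ℂ, Measurable[m] f → (∃ C : ℝ, ∀ p, ‖f p‖ ≤ C) → ∀ u,
    Tendsto (fun v => ∫ p, ‖f (z v p) - f (z u p)‖ ∂μ) (𝓝 u) (𝓝 0)

/-- A rate of shearing: `r 0 = 0`, `|r n| → ∞` as `|n| → ∞`, and `|r n| ≤ D |r n'|` whenever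
`|n| ≤ 2 |n'|`.  For instance `r n = n ^ d` with `d ≥ 1`. -/
structure Rate (r : ℤ → ℝ) : Prop where
  zero : r 0 = 0
  lim : ∀ b : ℝ, ∃ M : ℕ, ∀ n : ℤ, (M : ℤ) ≤ |n| → b ≤ |r n|
  dbl : ∃ D : ℝ, ∀ n n' : ℤ, |n| ≤ 2 * |n'| → |r n| ≤ D * |r n'|

/-- `T` shears the perturbations `x ε` along the flow `z` with rate `r`: for every bounded
`m`-measurable `f` and `U, δ > 0`, if `ε > 0` is small enough then
`∫ |f (T ^ n (x ε p)) - f (z (ε r(n)) (T ^ n p))| dμ(p) ≤ δ` for all integers `n` (positive or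
negative) with `ε |r n| ≤ U`. -/
def Sheared (m : MeasurableSpace X) [MeasurableSpace X] (μ : Measure X) (T : Equiv.Perm X)
    (x : ℝ → X → X) (z : ℝ → X → X) (r : ℤ → ℝ) : Prop :=
  ∀ f : X → ℂ, Measurable[m] f → (∃ C : ℝ, ∀ p, ‖f p‖ ≤ C) → ∀ U δ : ℝ, 0 < U → 0 < δ →
    ∃ ε₀ > 0, ∀ ε : ℝ, 0 < ε → ε < ε₀ → ∀ n : ℤ, ε * |r n| ≤ U →
      ∫ p, ‖f ((T ^ n) (x ε p)) - f (z (ε * r n) ((T ^ n) p))‖ ∂μ ≤ δ

/-- **Multiple mixing is decided on the invariant sets of a sheared flow.**  Let `T` be an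
automorphism of a probability space `(X, μ)` and `m` a `σ`-algebra invariant under `T` and `T⁻¹`
(for instance that of all measurable sets).  Let `z` be a measure preserving flow commuting with
`T` and let `x ε` be measure preserving perturbations sheared by `T` along `z`, all on the measure
algebra of `m`.  Then for every `k`, `T` is mixing of multiplicity `k` on `m` if and only if it is
mixing of multiplicity `k` on the sets of `m` which are invariant under `z`.  In particular, if all
these invariant sets have measure zero or one, then `T` is mixing of every multiplicity on `m`. -/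
theorem result (m : MeasurableSpace X) [mX : MeasurableSpace X] (μ : Measure X)
    [IsProbabilityMeasure μ] (T : X ≃ᵐ X) (hT : MeasurePreserving T μ μ) (hm : m ≤ mX)
    (hTm : Measurable[m, m] T) (hTm' : Measurable[m, m] T.symm)
    (z : ℝ → X → X) (hz : FlowOn m μ z) (hTz : ∀ u, SameOn m μ (T ∘ z u) (z u ∘ T))
    (x : ℝ → X → X) (hx : ∀ ε, MeasurePreserving (x ε) μ μ) (hxm : ∀ ε, Measurable[m, m] (x ε))
    (r : ℤ → ℝ) (hr : Rate r) (hs : Sheared m μ T.toEquiv x z r) :
    (∀ k : ℕ, MixOn μ T (fun A => MeasurableSet[m] A) k ↔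
      MixOn μ T (fun A => MeasurableSet[m] A ∧ ∀ u, z u ⁻¹' A =ᵐ[μ] A) k) ∧
    ((∀ A, MeasurableSet[m] A → (∀ u, z u ⁻¹' A =ᵐ[μ] A) → μ A = 0 ∨ μ A = 1) →
      ∀ k : ℕ, MixOn μ T (fun A => MeasurableSet[m] A) k) := by
  have key : ∀ k : ℕ, MixOn μ T (fun A => MeasurableSet[m] A ∧ ∀ u, z u ⁻¹' A =ᵐ[μ] A) k →
      MixOn μ T (fun A => MeasurableSet[m] A) k := fun k h =>
    Pool.Agent.W42.RN.reduction_on hT hm hTm hTm'
      ⟨hz.mp, hz.meas, hz.zero, hz.add, fun f hf u => hz.cont f hf.1 hf.2 u⟩ hTz hx hxm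
      ⟨hr.zero, hr.lim, hr.dbl⟩ (fun f hf U δ hU hδ => hs f hf.1 hf.2 U δ hU hδ) k h
  refine ⟨fun k => ⟨fun h A hA => h A fun i => ⟨(hA i).1, (hA i).2.1⟩, key k⟩, fun herg k => ?_⟩
  exact key k (Pool.Agent.W42.RN.mixOn_trivial
    (Q := fun A => MeasurableSet[m] A ∧ ∀ u, z u ⁻¹' A =ᵐ[μ] A) hT
    (fun A _ hA => herg A hA.1 hA.2) k)

/-- The case of the Heisenberg group: if `T x_s = x_s z_s T` for all `s > 0`, where `z` is a flow
commuting with `T` and `x_s → 1` in the mean as `s → 0`, then `T` shears `x` along `z` with rate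
`r n = n`. -/
theorem sheared_of_heisenberg [mX : MeasurableSpace X] (μ : Measure X) [IsProbabilityMeasure μ]
    (T : X ≃ᵐ X) (hT : MeasurePreserving T μ μ) (z x : ℝ → X → X)
    (hz : ∀ u, MeasurePreserving (z u) μ μ) (hz0 : z 0 = id) (hzadd : ∀ u v, z (u + v) = z u ∘ z v)
    (hx : ∀ ε, MeasurePreserving (x ε) μ μ) (hTz : ∀ u p, T (z u p) = z u (T p))
    (hTx : ∀ ε p, T (x ε p) = x ε (z ε (T p)))
    (hx0 : ∀ f : X → ℂ, Measurable f → (∃ C : ℝ, ∀ p, ‖f p‖ ≤ C) →
      Tendsto (fun ε => ∫ p, ‖f (x ε p) - f p‖ ∂μ) (𝓝[>] 0) (𝓝 0)) :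
    Sheared mX μ T.toEquiv x z (fun n => (n : ℝ)) := by
  intro f hf hfb U δ hU hδ
  have h1 := (hx0 f hf hfb).eventually_lt_const hδ
  rw [eventually_nhdsWithin_iff, Metric.eventually_nhds_iff] at h1
  obtain ⟨ε₀, hε₀, h1⟩ := h1
  refine ⟨ε₀, hε₀, fun ε hε hε1 n _ => ?_⟩
  have hP := Pool.Agent.W42.RN.act_pw hT
  have hzz : ∀ u v p, z u (z v p) = z (u + v) p := fun u v p => by rw [hzadd]; rfl
  have hTs : ∀ p, T.symm (x ε p) = x ε (z (-ε) (T.symm p)) := by
    intro p
    have h2 := hTx ε (z (-ε) (T.symm p))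
    rw [hTz, T.apply_symm_apply, hzz, add_neg_cancel, hz0] at h2
    simp only [id] at h2
    rw [← h2, T.symm_apply_apply]
  have hTzs : ∀ u p, T.symm (z u p) = z u (T.symm p) := by
    intro u p
    have h2 := hTz u (T.symm p)
    rw [T.apply_symm_apply] at h2
    rw [← h2, T.symm_apply_apply]
  have hnat : ∀ (k : ℕ) p, T^[k] (x ε p) = x ε (z (ε * k) (T^[k] p)) := by
    intro k
    induction k with
    | zero => intro p; simp [hz0]
    | succ k ih =>
      intro p
      rw [Function.iterate_succ_apply', ih, hTx, hTz, Function.iterate_succ_apply', hzz]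
      congr 2
      push_cast; ring
  have hneg : ∀ (k : ℕ) p, T.symm^[k] (x ε p) = x ε (z (-(ε * k)) (T.symm^[k] p)) := by
    intro k
    induction k with
    | zero => intro p; simp [hz0]
    | succ k ih =>
      intro p
      rw [Function.iterate_succ_apply', ih, hTs, hTzs, Function.iterate_succ_apply', hzz]
      congr 2
      push_cast; ring
  have hall : ∀ p, ((T.toEquiv : Equiv.Perm X) ^ n) (x ε p) =
      x ε (z (ε * n) (((T.toEquiv : Equiv.Perm X) ^ n) p)) := by
    intro p
    have e : ∀ q, ((T.toEquiv : Equiv.Perm X) ^ n) q = Pool.Agent.W42.RN.pw T n q := fun q => rfl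
    rw [e, e]
    obtain ⟨k, rfl | rfl⟩ := n.eq_nat_or_neg
    · rw [Pool.Agent.W42.RN.pw_nat, hnat]; simp
    · rw [Pool.Agent.W42.RN.pw_neg, hneg]; simp
  have h2 := h1 (y := ε) (by rw [Real.dist_eq, sub_zero, abs_of_pos hε]; exact hε1) hε
  have hmp : MeasurePreserving (fun p => z (ε * n) (((T.toEquiv : Equiv.Perm X) ^ n) p)) μ μ :=
    (hz _).comp (hP.mp n)
  have h3 : ∫ p, ‖f (((T.toEquiv : Equiv.Perm X) ^ n) (x ε p)) -
      f (z (ε * n) (((T.toEquiv : Equiv.Perm X) ^ n) p))‖ ∂μ = ∫ p, ‖f (x ε p) - f p‖ ∂μ := by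
    rw [← Pool.Agent.W42.RN.comp_int hmp (g := fun p => ‖f (x ε p) - f p‖)
      ((hf.comp (hx ε).measurable).sub hf).norm]
    congr 1
    funext p
    rw [hall]
  rw [h3]
  exact h2.le

end Pool.Agent.W42.RN.ShearingReduction
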